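import Mathlib

/-! Uniform measure on a simplex of large dimension. -/

open MeasureTheory Filter Topology Pointwise

namespace Pool.Agent.Q260.LS

/-- the corner simplex of size `s` -/
def DD (d : ℕ) (s : ℝ) : Set (Fin d → ℝ) := {x | (∀ i, 0 ≤ x i) ∧ ∑ i, x i ≤ s}

lemma DD_closed (d : ℕ) (s : ℝ) : IsClosed (DD d s) := by
  have : DD d s = (⋂ i, {x : Fin d → ℝ | 0 ≤ x i}) ∩ {x | ∑ i, x i ≤ s} := by
    ext x
    simp [DD]
  rw [this]
  apply IsClosed.inter
  · exact isClosed_iInter fun i => isClosed_le continuous_const (continuous_apply i)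
  · exact isClosed_le (by fun_prop) continuous_const

lemma DD_sub (d : ℕ) : DD d 1 ⊆ Set.Icc (0 : Fin d → ℝ) 1 := by
  intro x hx
  refine ⟨fun i => hx.1 i, fun i => ?_⟩
  have : x i ≤ ∑ j, x j := Finset.single_le_sum (fun j _ => hx.1 j) (Finset.mem_univ i)
  exact this.trans hx.2

lemma DD_lt_top (d : ℕ) : volume (DD d 1) < ⊤ := by
  refine (measure_mono (DD_sub d)).trans_lt ?_
  exact isCompact_Icc.measure_lt_top

lemma DD_pos (d : ℕ) : 0 < volume.real (DD d 1) := by
  rw [Measure.real, ENNReal.toReal_pos_iff]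
  refine ⟨?_, DD_lt_top d⟩
  set c : ℝ := 1 / (d + 1) with hc
  have hcpos : 0 < c := by positivity
  have hsub : (Set.univ.pi fun _ : Fin d => Set.Ioo (0 : ℝ) c) ⊆ DD d 1 := by
    intro x hx
    refine ⟨fun i => (hx i trivial).1.le, ?_⟩
    calc ∑ i, x i ≤ ∑ _i : Fin d, c := Finset.sum_le_sum fun i _ => (hx i trivial).2.le
      _ = d * c := by simp
      _ ≤ 1 := by
        rw [hc, mul_one_div, div_le_one (by positivity)]
        linarith
  refine lt_of_lt_of_le ?_ (measure_mono hsub)
  apply IsOpen.measure_pos volume (isOpen_set_pi Set.finite_univ fun _ _ => isOpen_Ioo)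
  exact ⟨fun _ => c / 2, fun i _ => ⟨by positivity, by linarith⟩⟩

lemma DD_scale (d : ℕ) {c : ℝ} (hc : 0 < c) :
    volume.real (DD d c) = c ^ d * volume.real (DD d 1) := by
  have h1 : DD d c = c • DD d 1 := by
    ext x
    rw [Set.mem_smul_set_iff_inv_smul_mem₀ hc.ne']
    simp only [DD, Set.mem_ofPred_eq, Pi.smul_apply, smul_eq_mul, ← Finset.mul_sum]
    constructor
    · rintro ⟨h1, h2⟩
      refine ⟨fun i => mul_nonneg (inv_nonneg.2 hc.le) (h1 i), ?_⟩
      rw [inv_mul_le_iff₀ hc, mul_one]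
      exact h2
    · rintro ⟨h1, h2⟩
      refine ⟨fun i => ?_, ?_⟩
      · have := h1 i
        rwa [mul_nonneg_iff_of_pos_left (inv_pos.2 hc)] at this
      · rwa [inv_mul_le_iff₀ hc, mul_one] at h2
  rw [h1, Measure.real, Measure.addHaar_smul, ENNReal.toReal_mul, Measure.real]
  congr 1
  simp [abs_of_pos hc, hc.le]

lemma vol_e (d : ℕ) (e : Fin d → ℝ) (he : ∀ i, 0 ≤ e i) (h1 : ∑ i, e i < 1) :
    volume.real {x : Fin d → ℝ | x ∈ DD d 1 ∧ ∀ i, e i ≤ x i} =
      (1 - ∑ i, e i) ^ d * volume.real (DD d 1) := by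
  have h2 : {x : Fin d → ℝ | x ∈ DD d 1 ∧ ∀ i, e i ≤ x i} =
      (fun x => x + (-e)) ⁻¹' (DD d (1 - ∑ i, e i)) := by
    ext x
    simp only [DD, Set.mem_ofPred_eq, Set.mem_preimage, Pi.add_apply, Pi.neg_apply,
      Finset.sum_add_distrib, Finset.sum_neg_distrib]
    constructor
    · rintro ⟨⟨h1, h2⟩, h3⟩
      exact ⟨fun i => by linarith [h3 i], by linarith⟩
    · rintro ⟨h1, h2⟩
      exact ⟨⟨fun i => by linarith [h1 i, he i], by linarith⟩, fun i => by linarith [h1 i]⟩
  rw [h2, Measure.real, measure_preimage_add_right, ← Measure.real, DD_scale d (by linarith)]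

lemma vol_one {d : ℕ} (i : Fin d) {a : ℝ} (ha : 0 ≤ a) (ha1 : a < 1) :
    volume.real {x : Fin d → ℝ | x ∈ DD d 1 ∧ a ≤ x i} = (1 - a) ^ d * volume.real (DD d 1) := by
  classical
  have h := vol_e d (Pi.single i a) (by
    intro j
    rw [Pi.single_apply]
    split_ifs
    · exact ha
    · exact le_rfl) (by simpa using ha1)
  rw [Finset.sum_pi_single' ] at h
  simp only [Finset.mem_univ, if_true] at h
  rw [← h]
  congr 1
  ext x
  simp only [Set.mem_ofPred_eq]
  constructor
  · rintro ⟨h1, h2⟩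
    refine ⟨h1, fun j => ?_⟩
    rw [Pi.single_apply]
    split_ifs with hj
    · rw [hj]; exact h2
    · exact h1.1 j
  · rintro ⟨h1, h2⟩
    refine ⟨h1, ?_⟩
    have := h2 i
    rwa [Pi.single_eq_same] at this

lemma vol_two {d : ℕ} {i j : Fin d} (hij : i ≠ j) {a b : ℝ} (ha : 0 ≤ a) (hb : 0 ≤ b)
    (hab : a + b < 1) :
    volume.real {x : Fin d → ℝ | x ∈ DD d 1 ∧ a ≤ x i ∧ b ≤ x j} =
      (1 - a - b) ^ d * volume.real (DD d 1) := by
  classical
  have hs : ∑ k, (Pi.single i a + Pi.single j b : Fin d → ℝ) k = a + b := by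
    simp only [Pi.add_apply, Finset.sum_add_distrib]
    simp
  have h := vol_e d (Pi.single i a + Pi.single j b : Fin d → ℝ) (by
    intro k
    rw [Pi.add_apply, Pi.single_apply, Pi.single_apply]
    split_ifs <;> linarith) (by rw [hs]; exact hab)
  rw [hs] at h
  rw [sub_sub, ← h]
  congr 1
  ext x
  simp only [Set.mem_ofPred_eq]
  constructor
  · rintro ⟨h1, h2, h3⟩
    refine ⟨h1, fun k => ?_⟩
    rw [Pi.add_apply, Pi.single_apply, Pi.single_apply]
    split_ifs with hk hk'
    · exact absurd (hk.symm.trans hk') hij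
    · rw [hk, add_zero]; exact h2
    · rename_i hk''
      rw [hk'', zero_add]; exact h3
    · rw [add_zero]; exact h1.1 k
  · rintro ⟨h1, h2⟩
    refine ⟨h1, ?_, ?_⟩
    · have := h2 i
      rwa [Pi.add_apply, Pi.single_eq_same, Pi.single_eq_of_ne hij, add_zero] at this
    · have := h2 j
      rwa [Pi.add_apply, Pi.single_eq_same, Pi.single_eq_of_ne hij.symm, zero_add] at this

lemma vol_last (d : ℕ) {a : ℝ} (ha : 0 ≤ a) (ha1 : a < 1) :
    volume.real {x : Fin d → ℝ | x ∈ DD d 1 ∧ a ≤ 1 - ∑ i, x i} =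
      (1 - a) ^ d * volume.real (DD d 1) := by
  rw [← DD_scale d (by linarith : 0 < 1 - a)]
  congr 1
  ext x
  simp only [DD, Set.mem_ofPred_eq]
  constructor
  · rintro ⟨⟨h1, h2⟩, h3⟩
    exact ⟨h1, by linarith⟩
  · rintro ⟨h1, h2⟩
    exact ⟨⟨h1, by linarith⟩, by linarith⟩

/-- the indicator of `{x i ≥ a}` -/
noncomputable def hh {d : ℕ} (a : ℝ) (i : Fin d) (x : Fin d → ℝ) : ℝ :=
  Set.indicator {x : Fin d → ℝ | a ≤ x i} (fun _ => 1) x

lemma meas_h {d : ℕ} (a : ℝ) (i : Fin d) : MeasurableSet {x : Fin d → ℝ | a ≤ x i} :=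
  measurableSet_le measurable_const (measurable_pi_apply i)

lemma meas_hh {d : ℕ} (a : ℝ) (i : Fin d) : Measurable (hh a i) :=
  measurable_const.indicator (meas_h a i)

lemma hh_01 {d : ℕ} (a : ℝ) (i : Fin d) (x : Fin d → ℝ) : hh a i x = 0 ∨ hh a i x = 1 := by
  unfold hh
  by_cases h : x ∈ {x : Fin d → ℝ | a ≤ x i}
  · right; rw [Set.indicator_of_mem h]
  · left; rw [Set.indicator_of_notMem h]

lemma hh_mul {d : ℕ} (a b : ℝ) (i j : Fin d) (x : Fin d → ℝ) :
    hh a i x * hh b j x = Set.indicator {x : Fin d → ℝ | a ≤ x i ∧ b ≤ x j} (fun _ => 1) x := by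
  unfold hh
  by_cases h1 : a ≤ x i <;> by_cases h2 : b ≤ x j <;> simp [h1, h2]

lemma int_ind {d : ℕ} (S : Set (Fin d → ℝ)) (hS : MeasurableSet S) :
    ∫ x in DD d 1, Set.indicator S (fun _ => (1 : ℝ)) x =
      volume.real {x | x ∈ DD d 1 ∧ x ∈ S} := by
  rw [integral_indicator hS, Measure.restrict_restrict hS, setIntegral_const, smul_eq_mul,
    mul_one]
  congr 1
  ext x
  simp [and_comm]

lemma integrable_bdd {d : ℕ} {g : (Fin d → ℝ) → ℝ} (hg : Measurable g) {C : ℝ}
    (hC : ∀ x, |g x| ≤ C) : IntegrableOn g (DD d 1) := by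
  refine Measure.integrableOn_of_bounded (DD_lt_top d).ne hg.aestronglyMeasurable (M := C) ?_
  exact Filter.Eventually.of_forall fun x => by rw [Real.norm_eq_abs]; exact hC x

/-- number of coordinates in the window `[a, b)` -/
noncomputable def YY {d : ℕ} (a b : ℝ) (x : Fin d → ℝ) : ℝ := ∑ i, (hh a i x - hh b i x)

lemma int_h {d : ℕ} (i : Fin d) {a : ℝ} (ha : 0 ≤ a) (ha1 : a < 1) :
    ∫ x in DD d 1, hh a i x = (1 - a) ^ d * volume.real (DD d 1) := by
  unfold hh
  rw [int_ind _ (meas_h a i)]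
  exact vol_one i ha ha1

lemma int_hh {d : ℕ} {i j : Fin d} (hij : i ≠ j) {a b : ℝ} (ha : 0 ≤ a) (hb : 0 ≤ b)
    (hab : a + b < 1) :
    ∫ x in DD d 1, hh a i x * hh b j x = (1 - a - b) ^ d * volume.real (DD d 1) := by
  simp only [hh_mul]
  rw [int_ind {x : Fin d → ℝ | a ≤ x i ∧ b ≤ x j} ((meas_h a i).inter (meas_h b j))]
  exact vol_two hij ha hb hab

lemma h_int {d : ℕ} (a : ℝ) (i : Fin d) : IntegrableOn (hh a i) (DD d 1) :=
  integrable_bdd (meas_hh a i) (C := 1) fun x => by rcases hh_01 a i x with h | h <;> rw [h] <;> simp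

lemma hh_int {d : ℕ} (a b : ℝ) (i j : Fin d) :
    IntegrableOn (fun x => hh a i x * hh b j x) (DD d 1) :=
  integrable_bdd ((meas_hh a i).mul (meas_hh b j)) (C := 1) fun x => by
    rcases hh_01 a i x with h | h <;> rcases hh_01 b j x with h' | h' <;> rw [h, h'] <;> simp

/-- first moment density -/
noncomputable def pp (d : ℕ) (a b : ℝ) : ℝ := (1 - a) ^ d - (1 - b) ^ d

/-- second moment density -/
noncomputable def qq (d : ℕ) (a b : ℝ) : ℝ :=
  (1 - a - a) ^ d - 2 * (1 - a - b) ^ d + (1 - b - b) ^ d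

lemma int_Y {d : ℕ} {a b : ℝ} (ha : 0 ≤ a) (hab : a ≤ b) (hb : b < 1) :
    ∫ x in DD d 1, YY a b x = d * pp d a b * volume.real (DD d 1) := by
  unfold YY
  rw [integral_finsetSum]
  · have : ∀ i : Fin d, ∫ x in DD d 1, (hh a i x - hh b i x) =
        pp d a b * volume.real (DD d 1) := by
      intro i
      rw [integral_sub (h_int a i) (h_int b i), int_h i ha (by linarith),
        int_h i (by linarith) hb]
      unfold pp
      ring
    rw [Finset.sum_congr rfl fun i _ => this i]
    simp
    ring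
  · intro i _
    exact (h_int a i).sub (h_int b i)

lemma int_pair {d : ℕ} {a b : ℝ} (ha : 0 ≤ a) (hab : a ≤ b) (hb : b + b < 1) (i j : Fin d) :
    ∫ x in DD d 1, (hh a i x - hh b i x) * (hh a j x - hh b j x) =
      (if i = j then pp d a b else qq d a b) * volume.real (DD d 1) := by
  by_cases hij : i = j
  · subst hij
    rw [if_pos rfl]
    have h1 : ∀ x : Fin d → ℝ, (hh a i x - hh b i x) * (hh a i x - hh b i x) =
        hh a i x - hh b i x := by
      intro x
      have h2 : hh b i x ≤ hh a i x := by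
        unfold hh
        apply Set.indicator_le_indicator_of_subset
        · intro y (hy : b ≤ y i)
          exact hab.trans hy
        · intro _; exact zero_le_one
      rcases hh_01 a i x with h | h <;> rcases hh_01 b i x with h' | h'
      · rw [h, h']; norm_num
      · rw [h, h'] at h2; norm_num at h2
      · rw [h, h']; norm_num
      · rw [h, h']; norm_num
    simp only [h1]
    rw [integral_sub (h_int a i) (h_int b i), int_h i ha (by linarith),
      int_h i (by linarith) (by linarith)]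
    unfold pp
    ring
  · rw [if_neg hij]
    have h1 : ∀ x : Fin d → ℝ, (hh a i x - hh b i x) * (hh a j x - hh b j x) =
        (hh a i x * hh a j x - hh a i x * hh b j x) -
        (hh b i x * hh a j x - hh b i x * hh b j x) := by
      intro x; ring
    simp only [h1]
    have e1 := integral_sub (f := fun x => hh a i x * hh a j x - hh a i x * hh b j x)
      (g := fun x => hh b i x * hh a j x - hh b i x * hh b j x)
      ((hh_int a a i j).sub (hh_int a b i j)) ((hh_int b a i j).sub (hh_int b b i j))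
    rw [e1, integral_sub (hh_int a a i j) (hh_int a b i j),
      integral_sub (hh_int b a i j) (hh_int b b i j),
      int_hh hij ha ha (by linarith), int_hh hij ha (by linarith) (by linarith),
      int_hh hij (by linarith) ha (by linarith), int_hh hij (by linarith) (by linarith) hb]
    unfold qq
    have : (1 - b - a) = (1 - a - b) := by ring
    rw [this]
    ring

lemma int_Y2 {d : ℕ} {a b : ℝ} (ha : 0 ≤ a) (hab : a ≤ b) (hb : b + b < 1) :
    ∫ x in DD d 1, YY a b x * YY a b x =
      (d * pp d a b + d * (d - 1) * qq d a b) * volume.real (DD d 1) := by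
  unfold YY
  simp only [Finset.sum_mul_sum]
  have hI : ∀ i j : Fin d, IntegrableOn
      (fun x => (hh a i x - hh b i x) * (hh a j x - hh b j x)) (DD d 1) := by
    intro i j
    refine integrable_bdd (((meas_hh a i).sub (meas_hh b i)).mul
      ((meas_hh a j).sub (meas_hh b j))) (C := 1) fun x => ?_
    rcases hh_01 a i x with h | h <;> rcases hh_01 b i x with h' | h' <;>
    rcases hh_01 a j x with h'' | h'' <;> rcases hh_01 b j x with h''' | h''' <;>
    rw [h, h', h'', h'''] <;> norm_num
  rw [integral_finsetSum]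
  · have : ∀ i : Fin d, ∫ x in DD d 1, ∑ j, (hh a i x - hh b i x) * (hh a j x - hh b j x) =
        (pp d a b + (d - 1) * qq d a b) * volume.real (DD d 1) := by
      intro i
      rw [integral_finsetSum _ fun j _ => hI i j,
        Finset.sum_congr rfl fun j _ => int_pair ha hab hb i j, ← Finset.sum_mul]
      congr 1
      have h1 : ∀ j : Fin d, (if i = j then pp d a b else qq d a b) =
          qq d a b + (if i = j then pp d a b - qq d a b else 0) := by
        intro j
        split_ifs <;> ring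
      rw [Finset.sum_congr rfl fun j _ => h1 j, Finset.sum_add_distrib]
      simp
      ring
    rw [Finset.sum_congr rfl fun i _ => this i]
    simp
    ring
  · intro i _
    exact integrable_finsetSum _ fun j _ => hI i j

/-- second moment bound -/
lemma bad_le {d : ℕ} {a b : ℝ} (ha : 0 ≤ a) (hab : a ≤ b) (hb : b + b < 1) :
    (d * pp d a b) ^ 2 * volume.real {x : Fin d → ℝ | x ∈ DD d 1 ∧ ∀ i, ¬ (a ≤ x i ∧ x i < b)} ≤
      (d * pp d a b + d * (d - 1) * qq d a b - (d * pp d a b) ^ 2) *
        volume.real (DD d 1) := by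
  set c := (d : ℝ) * pp d a b with hc
  set S := {x : Fin d → ℝ | ∀ i, ¬ (a ≤ x i ∧ x i < b)} with hS
  have hSm : MeasurableSet S := by
    have : S = ⋂ i, {x : Fin d → ℝ | ¬ (a ≤ x i ∧ x i < b)} := by
      ext x; simp [hS]
    rw [this]
    apply MeasurableSet.iInter
    intro i
    apply MeasurableSet.compl
    exact (meas_h a i).inter (measurableSet_lt (measurable_pi_apply i) measurable_const)
  have hYm : Measurable (YY a b : (Fin d → ℝ) → ℝ) := by
    unfold YY
    exact Finset.measurable_fun_sum _ fun i _ => (meas_hh a i).sub (meas_hh b i)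
  have hYb : ∀ x : Fin d → ℝ, |YY a b x| ≤ d := by
    intro x
    unfold YY
    refine (Finset.abs_sum_le_sum_abs _ _).trans ?_
    calc ∑ i, |hh a i x - hh b i x| ≤ ∑ _i : Fin d, (1 : ℝ) := by
          apply Finset.sum_le_sum
          intro i _
          rcases hh_01 a i x with h | h <;> rcases hh_01 b i x with h' | h' <;> rw [h, h'] <;>
            norm_num
      _ = d := by simp
  have hYI : IntegrableOn (YY a b) (DD d 1) := integrable_bdd hYm hYb
  have hY2I : IntegrableOn (fun x => YY a b x * YY a b x) (DD d 1) :=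
    integrable_bdd (hYm.mul hYm) (C := (d : ℝ) * d) fun x => by
      rw [abs_mul]
      exact mul_le_mul (hYb x) (hYb x) (abs_nonneg _) (Nat.cast_nonneg _)
  have hcI : IntegrableOn (fun _ : Fin d → ℝ => c ^ 2) (DD d 1) :=
    integrable_bdd measurable_const (C := |c ^ 2|) fun _ => le_rfl
  have h1 : ∫ x in DD d 1, (YY a b x - c) ^ 2 =
      (c + d * (d - 1) * qq d a b - c ^ 2) * volume.real (DD d 1) := by
    have h2 : ∀ x : Fin d → ℝ, (YY a b x - c) ^ 2 =
        (YY a b x * YY a b x - (2 * c) * YY a b x) + c ^ 2 := by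
      intro x; ring
    simp only [h2]
    have e1 := integral_add (f := fun x => YY a b x * YY a b x - (2 * c) * YY a b x)
      (g := fun _ => c ^ 2) (hY2I.sub (hYI.const_mul (2 * c))) hcI
    have e2 := integral_sub (f := fun x => YY a b x * YY a b x)
      (g := fun x => (2 * c) * YY a b x) hY2I (hYI.const_mul (2 * c))
    rw [e1, e2,
      integral_const_mul, int_Y2 ha hab hb, int_Y ha hab (by linarith), setIntegral_const,
      smul_eq_mul]
    rw [← hc]
    ring
  rw [← h1]
  have h3 : c ^ 2 * volume.real {x : Fin d → ℝ | x ∈ DD d 1 ∧ ∀ i, ¬ (a ≤ x i ∧ x i < b)} =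
      ∫ x in DD d 1, c ^ 2 * Set.indicator S (fun _ => (1 : ℝ)) x := by
    rw [integral_const_mul, int_ind S hSm]
    rfl
  rw [h3]
  apply integral_mono_of_nonneg
  · exact Filter.Eventually.of_forall fun x => mul_nonneg (sq_nonneg _)
      (Set.indicator_nonneg (fun _ _ => zero_le_one) _)
  · refine integrable_bdd ((hYm.sub_const _).pow_const 2) (C := (d + |c|) ^ 2) fun x => ?_
    rw [abs_pow]
    apply pow_le_pow_left₀ (abs_nonneg _)
    exact (abs_sub _ _).trans (add_le_add (hYb x) le_rfl)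
  · refine Filter.Eventually.of_forall fun x => ?_
    beta_reduce
    by_cases hx : x ∈ S
    · rw [Set.indicator_of_mem hx, mul_one]
      have h4 : YY a b x = 0 := by
        unfold YY
        apply Finset.sum_eq_zero
        intro i _
        have h5 := hx i
        unfold hh
        by_cases h6 : a ≤ x i
        · have h7 : b ≤ x i := by
            by_contra h8
            exact h5 ⟨h6, not_le.1 h8⟩
          simp [h6, h7]
        · have h7 : ¬ b ≤ x i := fun h8 => h6 (hab.trans h8)
          simp [h6, h7]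
      rw [h4]
      apply le_of_eq
      ring
    · rw [Set.indicator_of_notMem hx, mul_zero]
      positivity

end Pool.Agent.Q260.LS
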