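import Mathlib
import Pool.Agent.Q260.LS.Simplex

/-! Asymptotics: a random point of a large simplex has coordinates in all windows. -/

open MeasureTheory Filter Topology

namespace Pool.Agent.Q260.LS

lemma pw (c : ℝ) : Tendsto (fun d : ℕ => (1 - c / (d : ℝ)) ^ d) atTop (𝓝 (Real.exp (-c))) := by
  have h := Real.tendsto_one_add_div_pow_exp (-c)
  refine h.congr fun d => ?_
  rw [neg_div, ← sub_eq_add_neg]

lemma pp_lim (α β : ℝ) : Tendsto (fun d : ℕ => pp d (α / d) (β / d)) atTop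
    (𝓝 (Real.exp (-α) - Real.exp (-β))) := by
  unfold pp
  exact (pw α).sub (pw β)

lemma qq_lim (α β : ℝ) : Tendsto (fun d : ℕ => qq d (α / d) (β / d)) atTop
    (𝓝 ((Real.exp (-α) - Real.exp (-β)) ^ 2)) := by
  unfold qq
  have h1 := pw (α + α)
  have h2 := pw (α + β)
  have h3 := pw (β + β)
  have h4 := (h1.sub (h2.const_mul 2)).add h3
  have h5 : Real.exp (-(α + α)) - 2 * Real.exp (-(α + β)) + Real.exp (-(β + β)) =
      (Real.exp (-α) - Real.exp (-β)) ^ 2 := by
    rw [show -(α + α) = -α + -α by ring, show -(α + β) = -α + -β by ring,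
      show -(β + β) = -β + -β by ring, Real.exp_add, Real.exp_add, Real.exp_add]
    ring
  rw [h5] at h4
  refine h4.congr fun d => ?_
  rw [show (1 : ℝ) - α / d - α / d = 1 - (α + α) / d by ring,
    show (1 : ℝ) - α / d - β / d = 1 - (α + β) / d by ring,
    show (1 : ℝ) - β / d - β / d = 1 - (β + β) / d by ring]

lemma ratio_lim {α β : ℝ} (hαβ : α < β) :
    Tendsto (fun d : ℕ => 1 / (d * pp d (α / d) (β / d)) +
      (1 - 1 / (d : ℝ)) * (qq d (α / d) (β / d) / (pp d (α / d) (β / d)) ^ 2) - 1) atTop (𝓝 0) := by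
  set P := Real.exp (-α) - Real.exp (-β) with hP
  have hP0 : 0 < P := by
    rw [hP, sub_pos]
    exact Real.exp_lt_exp.2 (by linarith)
  have h1 := pp_lim α β
  have h2 := qq_lim α β
  have hd : Tendsto (fun d : ℕ => 1 / (d : ℝ)) atTop (𝓝 0) :=
    tendsto_const_div_atTop_nhds_zero_nat 1
  have h3 : Tendsto (fun d : ℕ => 1 / ((d : ℝ) * pp d (α / d) (β / d))) atTop (𝓝 0) := by
    have h4 := hd.div h1 hP0.ne'
    rw [zero_div] at h4
    refine h4.congr fun d => ?_
    rw [Pi.div_apply, div_div]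
  have h5 := h2.div (h1.pow 2) (pow_ne_zero 2 hP0.ne')
  have h6 := (h3.add ((tendsto_const_nhds (x := (1 : ℝ)).sub hd).mul h5)).sub
    (tendsto_const_nhds (x := (1 : ℝ)))
  have h7 : (0 : ℝ) + (1 - 0) * ((Real.exp (-α) - Real.exp (-β)) ^ 2 /
      (Real.exp (-α) - Real.exp (-β)) ^ 2) - 1 = 0 := by
    rw [← hP, div_self (pow_ne_zero 2 hP0.ne')]
    ring
  rw [h7] at h6
  exact h6

/-- with high probability some coordinate lies in the window `[α/d, β/d)` -/
lemma window {α β : ℝ} (hα : 0 ≤ α) (hαβ : α < β) {ε : ℝ} (hε : 0 < ε) :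
    ∀ᶠ d : ℕ in atTop,
      volume.real {x : Fin d → ℝ | x ∈ DD d 1 ∧ ∀ i, ¬ (α / d ≤ x i ∧ x i < β / d)} ≤
        ε * volume.real (DD d 1) := by
  have h1 := (ratio_lim hαβ).eventually (gt_mem_nhds hε)
  have hP0 : 0 < Real.exp (-α) - Real.exp (-β) := by
    rw [sub_pos]
    exact Real.exp_lt_exp.2 (by linarith)
  have h2 := (pp_lim α β).eventually (lt_mem_nhds hP0)
  filter_upwards [h1, h2, eventually_gt_atTop (Nat.ceil (2 * β)), eventually_gt_atTop 0] with
    d hd hp hβ hd0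
  have hdR : (0 : ℝ) < d := by exact_mod_cast hd0
  have hβd : 2 * β < d := lt_of_le_of_lt (Nat.le_ceil _) (by exact_mod_cast hβ)
  have h3 := bad_le (d := d) (a := α / d) (b := β / d) (by positivity)
    (by gcongr) (by
      rw [← add_div, div_lt_one hdR]
      linarith)
  set p := pp d (α / d) (β / d) with hpd
  set q := qq d (α / d) (β / d) with hqd
  set V := volume.real {x : Fin d → ℝ | x ∈ DD d 1 ∧ ∀ i, ¬ (α / d ≤ x i ∧ x i < β / d)} with hV
  have hpos : 0 < (d * p) ^ 2 := by positivity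
  have h4 : (d * p) ^ 2 * V ≤ (d * p) ^ 2 * (ε * volume.real (DD d 1)) := by
    refine h3.trans ?_
    rw [← mul_assoc]
    apply mul_le_mul_of_nonneg_right _ (DD_pos d).le
    have h5 : d * p + d * (d - 1) * q - (d * p) ^ 2 =
        (d * p) ^ 2 * (1 / (d * p) + (1 - 1 / (d : ℝ)) * (q / p ^ 2) - 1) := by
      field_simp
    rw [h5]
    exact mul_le_mul_of_nonneg_left hd.le hpos.le
  exact le_of_mul_le_mul_left h4 hpos

lemma fin_ne (d : ℕ) (S : Set (Fin d → ℝ)) (hS : S ⊆ DD d 1) : volume S ≠ ⊤ :=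
  ((measure_mono hS).trans_lt (DD_lt_top d)).ne

lemma small_one (d : ℕ) (S : Set (Fin d → ℝ)) {t : ℝ} (ht1 : t ≤ 1)
    (h : volume.real {x : Fin d → ℝ | x ∈ DD d 1 ∧ x ∈ S} = (1 - t) ^ d * volume.real (DD d 1))
    (hS : MeasurableSet S) :
    volume.real {x : Fin d → ℝ | x ∈ DD d 1 ∧ x ∉ S} ≤ d * t * volume.real (DD d 1) := by
  have h1 : volume.real {x : Fin d → ℝ | x ∈ DD d 1 ∧ x ∉ S} =
      volume.real (DD d 1) - volume.real {x : Fin d → ℝ | x ∈ DD d 1 ∧ x ∈ S} := by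
    have h2 := measureReal_inter_add_sdiff₀ (μ := volume) (s := DD d 1) hS.nullMeasurableSet (h := (DD_lt_top d).ne)
    have e1 : {x : Fin d → ℝ | x ∈ DD d 1 ∧ x ∉ S} = DD d 1 \ S := rfl
    have e2 : {x : Fin d → ℝ | x ∈ DD d 1 ∧ x ∈ S} = DD d 1 ∩ S := rfl
    rw [e1, e2]
    linarith
  rw [h1, h]
  have h3 : 1 - (d : ℝ) * t ≤ (1 - t) ^ d := by
    have := one_add_mul_le_pow (a := -t) (by linarith) d
    rw [← sub_eq_add_neg] at this
    linarith
  nlinarith [DD_pos d]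

/-- the good set -/
def Good (d : ℕ) (t : ℝ) {ι : Type} (α β : ι → ℝ) : Set (Fin d → ℝ) :=
  {x | x ∈ DD d 1 ∧ (∀ i, t ≤ x i) ∧ t ≤ 1 - ∑ i, x i ∧
    ∀ r, ∃ i, α r / d ≤ x i ∧ x i < β r / d}

theorem good {ι : Type} [Fintype ι] (α β : ι → ℝ) (hα : ∀ r, 0 ≤ α r) (hαβ : ∀ r, α r < β r)
    {τ : ℝ} (hτ : 0 < τ) {ε : ℝ} (hε : 0 < ε) :
    ∀ᶠ d : ℕ in atTop,
      (1 - 2 * τ - ε) * volume.real (DD d 1) ≤ volume.real (Good d (τ / (d : ℝ) ^ 2) α β) := by
  have h1 : ∀ᶠ d : ℕ in atTop, ∀ r,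
      volume.real {x : Fin d → ℝ | x ∈ DD d 1 ∧ ∀ i, ¬ (α r / d ≤ x i ∧ x i < β r / d)} ≤
        ε / (Fintype.card ι + 1) * volume.real (DD d 1) :=
    eventually_all.2 fun r => window (hα r) (hαβ r) (by positivity)
  filter_upwards [h1, eventually_gt_atTop 0, eventually_gt_atTop (Nat.ceil τ)] with d hd hd0 hdt
  have hdR : (1 : ℝ) ≤ d := by exact_mod_cast hd0
  have hτd : τ < d := lt_of_le_of_lt (Nat.le_ceil _) (by exact_mod_cast hdt)
  set t := τ / (d : ℝ) ^ 2 with ht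
  have ht0 : 0 ≤ t := by positivity
  have ht1 : t < 1 := by
    rw [ht, div_lt_one (by positivity)]
    nlinarith
  have hdt' : (d : ℝ) * t ≤ τ / d := by
    rw [ht]
    apply le_of_eq
    field_simp
  -- the bad sets
  set B1 : Set (Fin d → ℝ) := ⋃ i : Fin d, {x | x ∈ DD d 1 ∧ x ∉ {x : Fin d → ℝ | t ≤ x i}} with hB1
  set B2 : Set (Fin d → ℝ) := {x | x ∈ DD d 1 ∧ x ∉ {x : Fin d → ℝ | t ≤ 1 - ∑ i, x i}} with hB2
  set B3 : Set (Fin d → ℝ) := ⋃ r : ι,
    {x : Fin d → ℝ | x ∈ DD d 1 ∧ ∀ i, ¬ (α r / d ≤ x i ∧ x i < β r / d)} with hB3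
  have hcov : DD d 1 ⊆ Good d t α β ∪ (B1 ∪ (B2 ∪ B3)) := by
    intro x hx
    by_cases c1 : ∀ i, t ≤ x i
    · by_cases c2 : t ≤ 1 - ∑ i, x i
      · by_cases c3 : ∀ r, ∃ i, α r / d ≤ x i ∧ x i < β r / d
        · exact Or.inl ⟨hx, c1, c2, c3⟩
        · right; right; right
          push Not at c3
          obtain ⟨r, hr⟩ := c3
          refine Set.mem_iUnion.2 ⟨r, hx, fun i hi => ?_⟩
          exact absurd hi.2 (not_lt.2 (hr i hi.1))
      · right; right; left
        exact ⟨hx, c2⟩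
    · right; left
      push Not at c1
      obtain ⟨i, hi⟩ := c1
      exact Set.mem_iUnion.2 ⟨i, hx, not_le.2 hi⟩
  have hB1s : B1 ⊆ DD d 1 := Set.iUnion_subset fun i x hx => hx.1
  have hB2s : B2 ⊆ DD d 1 := fun x hx => hx.1
  have hB3s : B3 ⊆ DD d 1 := Set.iUnion_subset fun i x hx => hx.1
  have hGs : Good d t α β ⊆ DD d 1 := fun x hx => hx.1
  have hsub : Good d t α β ∪ (B1 ∪ (B2 ∪ B3)) ⊆ DD d 1 :=
    Set.union_subset hGs (Set.union_subset hB1s (Set.union_subset hB2s hB3s))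
  have hm := measureReal_mono (μ := volume) hcov (fin_ne d _ hsub)
  have hu1 := measureReal_union_le (μ := volume) (Good d t α β) (B1 ∪ (B2 ∪ B3))
  have hu2 := measureReal_union_le (μ := volume) B1 (B2 ∪ B3)
  have hu3 := measureReal_union_le (μ := volume) B2 B3
  have b1 : volume.real B1 ≤ τ * volume.real (DD d 1) := by
    refine (measureReal_iUnion_fintype_le _).trans ?_
    calc ∑ i : Fin d, volume.real {x | x ∈ DD d 1 ∧ x ∉ {x : Fin d → ℝ | t ≤ x i}}
        ≤ ∑ _i : Fin d, d * t * volume.real (DD d 1) := Finset.sum_le_sum fun i _ =>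
          small_one d _ ht1.le (vol_one i ht0 ht1) (meas_h t i)
      _ = (d * t) * d * volume.real (DD d 1) := by
          rw [Finset.sum_const, Finset.card_univ, Fintype.card_fin, nsmul_eq_mul]
          ring
      _ ≤ τ * volume.real (DD d 1) := by
          apply mul_le_mul_of_nonneg_right _ (DD_pos d).le
          calc d * t * d ≤ τ / d * d := mul_le_mul_of_nonneg_right hdt' (by linarith)
            _ = τ := by field_simp
  have b2 : volume.real B2 ≤ τ * volume.real (DD d 1) := by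
    have hmeas : MeasurableSet {x : Fin d → ℝ | t ≤ 1 - ∑ i, x i} :=
      measurableSet_le measurable_const (by fun_prop)
    refine (small_one d _ ht1.le (vol_last d ht0 ht1) hmeas).trans ?_
    apply mul_le_mul_of_nonneg_right _ (DD_pos d).le
    exact hdt'.trans (div_le_self hτ.le hdR)
  have b3 : volume.real B3 ≤ ε * volume.real (DD d 1) := by
    refine (measureReal_iUnion_fintype_le _).trans ?_
    calc ∑ r : ι, volume.real
          {x : Fin d → ℝ | x ∈ DD d 1 ∧ ∀ i, ¬ (α r / d ≤ x i ∧ x i < β r / d)}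
        ≤ ∑ _r : ι, ε / (Fintype.card ι + 1) * volume.real (DD d 1) :=
          Finset.sum_le_sum fun r _ => hd r
      _ = (Fintype.card ι / (Fintype.card ι + 1)) * (ε * volume.real (DD d 1)) := by
          rw [Finset.sum_const, Finset.card_univ, nsmul_eq_mul]
          ring
      _ ≤ 1 * (ε * volume.real (DD d 1)) := by
          apply mul_le_mul_of_nonneg_right _ (mul_nonneg hε.le (DD_pos d).le)
          rw [div_le_one (by positivity)]
          linarith
      _ = ε * volume.real (DD d 1) := one_mul _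
  linarith

end Pool.Agent.Q260.LS
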