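import Mathlib

/-! Laplacian spectra realised through orthonormal systems. -/

open Finset

namespace Pool.Agent.Q260.LS

/-- the weighted Laplacian `D_w - W_w` -/
def lap {V : Type} [Fintype V] [DecidableEq V] (w : V → V → ℝ) : Matrix V V ℝ :=
  Matrix.diagonal (fun i => ∑ j, w i j) - Matrix.of w

open Classical in
/-- `s` is realised by `G`: for some weighting of the edges of `G` by nonnegative reals the
multiset of the eigenvalues of the Laplacian is `0, s`. -/
def Realizable {V : Type} [Fintype V] (G : SimpleGraph V) (s : Multiset ℝ) : Prop :=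
  ∃ w : V → V → ℝ, (∀ i j, w i j = w j i) ∧ (∀ i j, 0 ≤ w i j) ∧
    (∀ i j, ¬ G.Adj i j → w i j = 0) ∧ (lap w).charpoly.roots = 0 ::ₘ s

open Classical in
/-- `y` is an orthonormal basis of the functions on `A` with sum zero -/
structure ONB {A I : Type} [Fintype A] [Fintype I] (y : I → A → ℝ) : Prop where
  sum : ∀ i, ∑ a, y i a = 0
  orth : ∀ i j, ∑ a, y i a * y j a = if i = j then 1 else 0
  card : Fintype.card I + 1 = Fintype.card A

/-- the matrix with eigenvalues `μ` -/
def mat {A I : Type} [Fintype I] (y : I → A → ℝ) (μ : I → ℝ) (a b : A) : ℝ :=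
  ∑ i, μ i * (y i a * y i b)

lemma mat_symm {A I : Type} [Fintype I] (y : I → A → ℝ) (μ : I → ℝ) (a b : A) :
    mat y μ a b = mat y μ b a := by
  unfold mat
  exact Finset.sum_congr rfl fun i _ => by ring

section

variable {A I : Type} [Fintype A] [Fintype I] {y : I → A → ℝ}

/-- the extended matrix -/
noncomputable def UU (y : I → A → ℝ) : Matrix (Option I) A ℝ := Matrix.of fun i a =>
  match i with
  | none => 1 / Real.sqrt (Fintype.card A)
  | some i => y i a

open Classical in
lemma ONB.mul_one (h : ONB y) : UU y * (UU y).transpose = 1 := by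
  have hA : 0 < Fintype.card A := by have := h.card; omega
  have hA' : (0 : ℝ) < Fintype.card A := by exact_mod_cast hA
  ext i j
  rw [Matrix.mul_apply, Matrix.one_apply]
  cases i with
  | none =>
    cases j with
    | none =>
      simp only [UU, Matrix.of_apply, Matrix.transpose_apply, if_true, Finset.sum_const,
        Finset.card_univ, nsmul_eq_mul]
      rw [div_mul_div_comm, one_mul, Real.mul_self_sqrt hA'.le]
      field_simp
    | some j =>
      simp only [UU, Matrix.of_apply, Matrix.transpose_apply]
      rw [← Finset.mul_sum, h.sum]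
      simp
  | some i =>
    cases j with
    | none =>
      simp only [UU, Matrix.of_apply, Matrix.transpose_apply]
      rw [← Finset.sum_mul, h.sum]
      simp
    | some j =>
      simp only [UU, Matrix.of_apply, Matrix.transpose_apply]
      rw [h.orth]
      simp

open Classical in
lemma ONB.one_mul (h : ONB y) : (UU y).transpose * UU y = 1 := by
  rw [Matrix.mul_eq_one_comm_of_card_eq]
  · exact h.mul_one
  · rw [Fintype.card_option, h.card]

open Classical in
lemma ONB.complete (h : ONB y) (a b : A) :
    ∑ i, y i a * y i b = (if a = b then 1 else 0) - 1 / (Fintype.card A : ℝ) := by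
  have hA : 0 < Fintype.card A := by have := h.card; omega
  have hA' : (0 : ℝ) < Fintype.card A := by exact_mod_cast hA
  have h1 := congrFun (congrFun h.one_mul a) b
  rw [Matrix.mul_apply, Matrix.one_apply, Fintype.sum_option] at h1
  simp only [UU, Matrix.of_apply, Matrix.transpose_apply] at h1
  rw [div_mul_div_comm, _root_.one_mul, Real.mul_self_sqrt hA'.le] at h1
  linarith

open Classical in
lemma ONB.mat_eq (h : ONB y) (μ : I → ℝ) : Matrix.of (mat y μ) =
    (UU y).transpose * (Matrix.diagonal (fun i : Option I => i.elim 0 μ) * UU y) := by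
  ext a b
  rw [Matrix.mul_apply, Fintype.sum_option]
  simp only [Matrix.diagonal_mul, UU, Matrix.of_apply, Matrix.transpose_apply, Option.elim]
  unfold mat
  rw [zero_mul, mul_zero, zero_add]
  exact Finset.sum_congr rfl fun i _ => by ring

open Classical in
lemma ONB.charpoly (h : ONB y) (μ : I → ℝ) :
    (Matrix.of (mat y μ)).charpoly.roots = 0 ::ₘ (Finset.univ.val.map μ) := by
  have h1 := Matrix.charpoly_mul_comm' (UU y).transpose
    (Matrix.diagonal (fun i : Option I => i.elim 0 μ) * UU y)
  have hc : Fintype.card (Option I) = Fintype.card A := by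
    rw [Fintype.card_option, h.card]
  rw [← h.mat_eq, Matrix.mul_assoc, h.mul_one, Matrix.mul_one, hc] at h1
  have h2 : (Matrix.of (mat y μ)).charpoly =
      (Matrix.diagonal (fun i : Option I => i.elim 0 μ)).charpoly := by
    exact mul_left_cancel₀ (pow_ne_zero _ Polynomial.X_ne_zero) h1
  have h3 : ∏ i : I, (Polynomial.X - Polynomial.C (μ i)) =
      ((Finset.univ.val.map μ).map fun a => Polynomial.X - Polynomial.C a).prod := by
    rw [Multiset.map_map]
    rfl
  rw [h2, Matrix.charpoly_diagonal, Fintype.prod_option]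
  simp only [Option.elim]
  rw [h3, Polynomial.roots_mul, Polynomial.roots_X_sub_C, Polynomial.roots_multiset_prod_X_sub_C]
  · rfl
  · refine mul_ne_zero (Polynomial.X_sub_C_ne_zero _) ?_
    rw [← h3, Finset.prod_ne_zero_iff]
    intro i _
    exact Polynomial.X_sub_C_ne_zero _

lemma ONB.row_sum (h : ONB y) (μ : I → ℝ) (a : A) : ∑ b, mat y μ a b = 0 := by
  unfold mat
  rw [Finset.sum_comm]
  apply Finset.sum_eq_zero
  intro i _
  rw [← Finset.mul_sum, ← Finset.mul_sum, h.sum]
  ring

/-- criterion for realisability -/
lemma ONB.realizable (h : ONB y) (μ : I → ℝ) (G : SimpleGraph A)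
    (hoff : ∀ a b, a ≠ b → mat y μ a b ≤ 0)
    (hz : ∀ a b, a ≠ b → ¬ G.Adj a b → mat y μ a b = 0) :
    Realizable G (Finset.univ.val.map μ) := by
  classical
  refine ⟨fun a b => if a = b then 0 else - mat y μ a b, ?_, ?_, ?_, ?_⟩
  · intro a b
    beta_reduce
    by_cases hab : a = b
    · subst hab; rfl
    · rw [if_neg hab, if_neg (Ne.symm hab), mat_symm]
  · intro a b
    beta_reduce
    split_ifs with hab
    · exact le_rfl
    · have := hoff a b hab
      linarith
  · intro a b hadj
    beta_reduce
    split_ifs with hab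
    · rfl
    · rw [hz a b hab hadj, neg_zero]
  · have hl : lap (fun a b => if a = b then 0 else - mat y μ a b) = Matrix.of (mat y μ) := by
      ext a b
      unfold lap
      rw [Matrix.sub_apply, Matrix.of_apply, Matrix.of_apply]
      beta_reduce
      by_cases hab : a = b
      · subst hab
        rw [Matrix.diagonal_apply_eq, if_pos rfl, sub_zero]
        have h1 := h.row_sum μ a
        rw [← Finset.add_sum_erase _ _ (Finset.mem_univ a)] at h1
        rw [← Finset.add_sum_erase _ _ (Finset.mem_univ a), if_pos rfl, zero_add]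
        have h2 : ∑ x ∈ Finset.univ.erase a, (if a = x then 0 else - mat y μ a x) =
            - ∑ x ∈ Finset.univ.erase a, mat y μ a x := by
          rw [← Finset.sum_neg_distrib]
          refine Finset.sum_congr rfl fun x hx => ?_
          rw [if_neg (Ne.symm (Finset.ne_of_mem_erase hx))]
        rw [h2]
        linarith
      · rw [Matrix.diagonal_apply_ne _ hab, if_neg hab]
        ring
    convert h.charpoly μ using 3

/-- reindexing -/
lemma ONB.reindex (h : ONB y) {A' I' : Type} [Fintype A'] [Fintype I'] (eA : A' ≃ A)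
    (eI : I' ≃ I) : ONB (fun i a => y (eI i) (eA a)) := by
  classical
  refine ⟨?_, ?_, ?_⟩
  · intro i
    rw [Equiv.sum_comp eA (fun a => y (eI i) a)]
    exact h.sum _
  · intro i j
    rw [Equiv.sum_comp eA (fun a => y (eI i) a * y (eI j) a), h.orth]
    by_cases hij : i = j
    · rw [if_pos hij, if_pos (by rw [hij])]
    · rw [if_neg hij, if_neg (fun h => hij (eI.injective h))]
  · rw [Fintype.card_congr eA, Fintype.card_congr eI, h.card]

lemma mat_reindex {A' I' : Type} [Fintype I'] (y : I → A → ℝ) (μ : I → ℝ) (eA : A' ≃ A)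
    (eI : I' ≃ I) (a b : A') :
    mat (fun i a => y (eI i) (eA a)) (fun i => μ (eI i)) a b = mat y μ (eA a) (eA b) := by
  unfold mat
  rw [Equiv.sum_comp eI (fun i => μ i * (y i (eA a) * y i (eA b)))]

end

section Join

variable {A B I J : Type} [Fintype A] [Fintype B] [Fintype I] [Fintype J]
  {y : I → A → ℝ} {z : J → B → ℝ}

/-- the joined system -/
noncomputable def join (y : I → A → ℝ) (z : J → B → ℝ) : Option (I ⊕ J) → A ⊕ B → ℝ
  | none, Sum.inl _ => (Fintype.card B : ℝ) /
      Real.sqrt (Fintype.card A * Fintype.card B * (Fintype.card A + Fintype.card B))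
  | none, Sum.inr _ => - (Fintype.card A : ℝ) /
      Real.sqrt (Fintype.card A * Fintype.card B * (Fintype.card A + Fintype.card B))
  | some (Sum.inl i), Sum.inl a => y i a
  | some (Sum.inl _), Sum.inr _ => 0
  | some (Sum.inr _), Sum.inl _ => 0
  | some (Sum.inr j), Sum.inr b => z j b

lemma ONB.join (h : ONB y) (h' : ONB z) : ONB (join y z) := by
  classical
  have hA : 0 < Fintype.card A := by have := h.card; omega
  have hA' : (0 : ℝ) < Fintype.card A := by exact_mod_cast hA
  have hB : 0 < Fintype.card B := by have := h'.card; omega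
  have hB' : (0 : ℝ) < Fintype.card B := by exact_mod_cast hB
  have hS : 0 < (Fintype.card A * Fintype.card B * (Fintype.card A + Fintype.card B) : ℝ) := by
    positivity
  have hsq := Real.mul_self_sqrt hS.le
  have hs0 := (Real.sqrt_pos.2 hS).ne'
  refine ⟨?_, ?_, ?_⟩
  · rintro (_ | (i | j))
    · rw [Fintype.sum_sum_type]
      simp only [LS.join, Finset.sum_const, Finset.card_univ, nsmul_eq_mul]
      ring
    · rw [Fintype.sum_sum_type]
      simp only [LS.join, Finset.sum_const_zero, add_zero]
      exact h.sum i
    · rw [Fintype.sum_sum_type]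
      simp only [LS.join, Finset.sum_const_zero, zero_add]
      exact h'.sum j
  · rintro (_ | (i | j)) (_ | (i' | j')) <;> rw [Fintype.sum_sum_type] <;>
      simp only [LS.join, mul_zero, zero_mul, Finset.sum_const_zero, add_zero, zero_add]
    · simp only [Finset.sum_const, Finset.card_univ, nsmul_eq_mul, if_true]
      rw [div_mul_div_comm, div_mul_div_comm, hsq]
      field_simp
      ring
    · rw [← Finset.mul_sum, h.sum]
      simp
    · rw [← Finset.mul_sum, h'.sum]
      simp
    · rw [← Finset.sum_mul, h.sum]
      simp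
    · rw [h.orth]
      simp
    · simp
    · rw [← Finset.sum_mul, h'.sum]
      simp
    · simp
    · rw [h'.orth]
      simp
  · rw [Fintype.card_option, Fintype.card_sum, Fintype.card_sum, ← h.card, ← h'.card]
    ring

/-- eigenvalues of the joined system -/
def jev (l : ℝ) (μ : I → ℝ) (ν : J → ℝ) : Option (I ⊕ J) → ℝ
  | none => l
  | some (Sum.inl i) => μ i
  | some (Sum.inr j) => ν j

lemma join_cross (h : ONB y) (h' : ONB z) (l : ℝ) (μ : I → ℝ) (ν : J → ℝ) (a : A) (b : B) :
    mat (join y z) (jev l μ ν) (Sum.inl a) (Sum.inr b) =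
      - (l / (Fintype.card A + Fintype.card B)) := by
  have hA : 0 < Fintype.card A := by have := h.card; omega
  have hA' : (0 : ℝ) < Fintype.card A := by exact_mod_cast hA
  have hB : 0 < Fintype.card B := by have := h'.card; omega
  have hB' : (0 : ℝ) < Fintype.card B := by exact_mod_cast hB
  have hS : 0 < (Fintype.card A * Fintype.card B * (Fintype.card A + Fintype.card B) : ℝ) := by
    positivity
  unfold mat
  rw [Fintype.sum_option, Fintype.sum_sum_type]
  simp only [join, jev, mul_zero, zero_mul, Finset.sum_const_zero, add_zero]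
  rw [div_mul_div_comm, Real.mul_self_sqrt hS.le]
  field_simp

lemma join_left (h : ONB y) (h' : ONB z) (l : ℝ) (μ : I → ℝ) (ν : J → ℝ) {a a' : A}
    (ha : a ≠ a') :
    mat (join y z) (jev l μ ν) (Sum.inl a) (Sum.inl a') =
      mat y (fun i => μ i - l / (Fintype.card A + Fintype.card B) * Fintype.card B) a a' := by
  classical
  have hA : 0 < Fintype.card A := by have := h.card; omega
  have hA' : (0 : ℝ) < Fintype.card A := by exact_mod_cast hA
  have hB : 0 < Fintype.card B := by have := h'.card; omega
  have hB' : (0 : ℝ) < Fintype.card B := by exact_mod_cast hB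
  have hS : 0 < (Fintype.card A * Fintype.card B * (Fintype.card A + Fintype.card B) : ℝ) := by
    positivity
  unfold mat
  rw [Fintype.sum_option, Fintype.sum_sum_type]
  simp only [join, jev, mul_zero, Finset.sum_const_zero, add_zero]
  rw [div_mul_div_comm, Real.mul_self_sqrt hS.le]
  have h1 := h.complete a a'
  rw [if_neg ha] at h1
  have h2 : ∑ i, (μ i - l / (Fintype.card A + Fintype.card B) * Fintype.card B) *
      (y i a * y i a') = ∑ i, μ i * (y i a * y i a') -
      l / (Fintype.card A + Fintype.card B) * Fintype.card B * ∑ i, y i a * y i a' := by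
    rw [Finset.mul_sum, ← Finset.sum_sub_distrib]
    exact Finset.sum_congr rfl fun i _ => by ring
  rw [h2, h1]
  field_simp
  ring

lemma join_right (h : ONB y) (h' : ONB z) (l : ℝ) (μ : I → ℝ) (ν : J → ℝ) {b b' : B}
    (hb : b ≠ b') :
    mat (join y z) (jev l μ ν) (Sum.inr b) (Sum.inr b') =
      mat z (fun j => ν j - l / (Fintype.card A + Fintype.card B) * Fintype.card A) b b' := by
  classical
  have hA : 0 < Fintype.card A := by have := h.card; omega
  have hA' : (0 : ℝ) < Fintype.card A := by exact_mod_cast hA
  have hB : 0 < Fintype.card B := by have := h'.card; omega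
  have hB' : (0 : ℝ) < Fintype.card B := by exact_mod_cast hB
  have hS : 0 < (Fintype.card A * Fintype.card B * (Fintype.card A + Fintype.card B) : ℝ) := by
    positivity
  unfold mat
  rw [Fintype.sum_option, Fintype.sum_sum_type]
  simp only [join, jev, mul_zero, Finset.sum_const_zero, zero_add]
  rw [div_mul_div_comm, Real.mul_self_sqrt hS.le]
  have h1 := h'.complete b b'
  rw [if_neg hb] at h1
  have h2 : ∑ j, (ν j - l / (Fintype.card A + Fintype.card B) * Fintype.card A) *
      (z j b * z j b') = ∑ j, ν j * (z j b * z j b') -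
      l / (Fintype.card A + Fintype.card B) * Fintype.card A * ∑ j, z j b * z j b' := by
    rw [Finset.mul_sum, ← Finset.sum_sub_distrib]
    exact Finset.sum_congr rfl fun i _ => by ring
  rw [h2, h1]
  field_simp
  ring

end Join

/-- the complete graph realises every tuple of nonnegative numbers -/
lemma full (n : ℕ) : ∀ ν : Fin n → ℝ, (∀ i, 0 ≤ ν i) →
    ∃ z : Fin n → Fin (n + 1) → ℝ, ONB z ∧ ∀ a b, a ≠ b → mat z ν a b ≤ 0 := by
  classical
  induction n with
  | zero =>
    intro ν _
    refine ⟨fun i => i.elim0, ⟨fun i => i.elim0, fun i => i.elim0, by simp⟩, ?_⟩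
    intro a b hab
    exact absurd (Fin.ext (by omega)) hab
  | succ n ih =>
    intro ν hν
    obtain ⟨i0, -, hmin⟩ := Finset.exists_min_image Finset.univ ν ⟨0, Finset.mem_univ _⟩
    have hmin' : ∀ i, ν i0 ≤ ν i := fun i => hmin i (Finset.mem_univ i)
    set c := ν i0 / ((n + 2 : ℕ) : ℝ) with hc
    have hcn : c ≤ ν i0 := by
      rw [hc]
      apply div_le_self (hν i0)
      push_cast
      linarith [(Nat.cast_nonneg n : (0 : ℝ) ≤ n)]
    obtain ⟨z, hz, hz'⟩ := ih (fun i => ν (i0.succAbove i) - c) (by
      intro i
      have := hmin' (i0.succAbove i)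
      linarith)
    -- the one-point system
    let z1 : Fin 0 → Fin 1 → ℝ := fun i => i.elim0
    have hz1 : ONB z1 := ⟨fun i => i.elim0, fun i => i.elim0, by simp⟩
    have hJ := hz.join hz1
    -- reindexing
    let eI : Fin (n + 1) ≃ Option (Fin n ⊕ Fin 0) :=
      (finSuccEquiv' i0).trans (Equiv.optionCongr (Equiv.sumEmpty (Fin n) (Fin 0)).symm)
    let eA : Fin (n + 2) ≃ Fin (n + 1) ⊕ Fin 1 := (finSumFinEquiv (m := n + 1) (n := 1)).symm
    have hνe : (fun i => jev (ν i0) (fun i => ν (i0.succAbove i)) (fun j : Fin 0 => j.elim0)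
        (eI i)) = ν := by
      have e1 : eI i0 = none := by
        change Option.map _ (finSuccEquiv' i0 i0) = none
        rw [finSuccEquiv'_at]
        rfl
      have e2 : ∀ j, eI (i0.succAbove j) = some (Sum.inl j) := by
        intro j
        change Option.map _ (finSuccEquiv' i0 (i0.succAbove j)) = _
        rw [finSuccEquiv'_succAbove]
        rfl
      funext i
      by_cases hi : i = i0
      · rw [hi, e1]
        rfl
      · obtain ⟨j, rfl⟩ := Fin.exists_succAbove_eq hi
        rw [e2]
        rfl
    refine ⟨fun i a => join z z1 (eI i) (eA a), hJ.reindex eA eI, ?_⟩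
    intro a b hab
    have h1 := mat_reindex (join z z1) (jev (ν i0) (fun i => ν (i0.succAbove i))
      (fun j : Fin 0 => j.elim0)) eA eI a b
    rw [hνe] at h1
    rw [h1]
    have hne : eA a ≠ eA b := fun h => hab (eA.injective h)
    have hcard : ((Fintype.card (Fin (n + 1)) : ℝ) + Fintype.card (Fin 1)) =
        ((n + 2 : ℕ) : ℝ) := by
      simp; ring
    rcases ha : eA a with x | x <;> rcases hb : eA b with x' | x'
    · have hxx : x ≠ x' := by
        rintro rfl
        exact hne (by rw [ha, hb])
      rw [join_left hz hz1 _ _ _ hxx, hcard]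
      have := hz' x x' hxx
      simpa [hc] using this
    · rw [join_cross hz hz1, hcard]
      have : 0 ≤ ν i0 / ((n + 2 : ℕ) : ℝ) := div_nonneg (hν i0) (Nat.cast_nonneg _)
      linarith
    · rw [mat_symm, join_cross hz hz1, hcard]
      have : 0 ≤ ν i0 / ((n + 2 : ℕ) : ℝ) := div_nonneg (hν i0) (Nat.cast_nonneg _)
      linarith
    · exfalso
      apply hne
      rw [ha, hb, Subsingleton.elim x x']

end Pool.Agent.Q260.LS
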