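import Mathlib
import Pool.Agent.Q260.LS.Lin

/-! Spectra of weighted stars. -/

open Finset Polynomial

namespace Pool.Agent.Q260.LS

/-- a symmetric matrix with zero row sums and enough distinct nonzero eigenvalues -/
lemma of_eigen {A I : Type} [Fintype A] [Fintype I] (hc : Fintype.card I + 1 = Fintype.card A)
    (M : A → A → ℝ) (hs : ∀ a b, M a b = M b a) (hr : ∀ a, ∑ b, M a b = 0) (μ : I → ℝ)
    (hμ : Function.Injective μ) (hμ0 : ∀ i, μ i ≠ 0) (x : I → A → ℝ) (hx : ∀ i, x i ≠ 0)
    (he : ∀ i a, ∑ b, M a b * x i b = μ i * x i a) :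
    ∃ y : I → A → ℝ, ONB y ∧ ∀ a b, mat y μ a b = M a b := by
  classical
  have hsum : ∀ i, ∑ a, x i a = 0 := by
    intro i
    have h1 : μ i * ∑ a, x i a = 0 := by
      rw [Finset.mul_sum]
      calc ∑ a, μ i * x i a = ∑ a, ∑ b, M a b * x i b :=
            Finset.sum_congr rfl fun a _ => (he i a).symm
        _ = ∑ b, ∑ a, M a b * x i b := Finset.sum_comm
        _ = ∑ b, (∑ a, M b a) * x i b := by
            refine Finset.sum_congr rfl fun b _ => ?_
            rw [Finset.sum_mul]
            exact Finset.sum_congr rfl fun a _ => by rw [hs a b]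
        _ = 0 := by simp [hr]
    rcases mul_eq_zero.1 h1 with h | h
    · exact absurd h (hμ0 i)
    · exact h
  have horth : ∀ i j, i ≠ j → ∑ a, x i a * x j a = 0 := by
    intro i j hij
    have h1 : μ i * ∑ a, x i a * x j a = μ j * ∑ a, x i a * x j a := by
      rw [Finset.mul_sum, Finset.mul_sum]
      calc ∑ a, μ i * (x i a * x j a) = ∑ a, (∑ b, M a b * x i b) * x j a := by
            refine Finset.sum_congr rfl fun a _ => ?_
            rw [he i a]; ring
        _ = ∑ a, ∑ b, M a b * x i b * x j a := by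
            refine Finset.sum_congr rfl fun a _ => ?_
            rw [Finset.sum_mul]
        _ = ∑ b, ∑ a, M a b * x i b * x j a := Finset.sum_comm
        _ = ∑ b, (∑ a, M b a * x j a) * x i b := by
            refine Finset.sum_congr rfl fun b _ => ?_
            rw [Finset.sum_mul]
            exact Finset.sum_congr rfl fun a _ => by rw [hs a b]; ring
        _ = ∑ a, μ j * (x i a * x j a) := by
            refine Finset.sum_congr rfl fun b _ => ?_
            rw [he j b]; ring
    by_contra hne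
    exact hij (hμ (mul_right_cancel₀ hne h1))
  have hpos : ∀ i, 0 < ∑ a, x i a * x i a := by
    intro i
    obtain ⟨a, ha⟩ := Function.ne_iff.1 (hx i)
    apply Finset.sum_pos' (fun a _ => mul_self_nonneg _)
    exact ⟨a, Finset.mem_univ a, mul_self_pos.2 ha⟩
  set y : I → A → ℝ := fun i a => x i a / Real.sqrt (∑ a, x i a * x i a) with hy
  have hONB : ONB y := by
    refine ⟨?_, ?_, hc⟩
    · intro i
      rw [hy]
      simp only
      rw [← Finset.sum_div, hsum, zero_div]
    · intro i j
      rw [hy]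
      simp only
      by_cases hij : i = j
      · subst hij
        rw [if_pos rfl]
        calc ∑ a, x i a / √(∑ a, x i a * x i a) * (x i a / √(∑ a, x i a * x i a))
            = (∑ a, x i a * x i a) / (√(∑ a, x i a * x i a) * √(∑ a, x i a * x i a)) := by
              rw [Finset.sum_div]
              refine Finset.sum_congr rfl fun a _ => ?_
              rw [div_mul_div_comm]
          _ = 1 := by
              rw [Real.mul_self_sqrt (hpos i).le, div_self (hpos i).ne']
      · rw [if_neg hij]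
        calc ∑ a, x i a / √(∑ a, x i a * x i a) * (x j a / √(∑ a, x j a * x j a))
            = (∑ a, x i a * x j a) / (√(∑ a, x i a * x i a) * √(∑ a, x j a * x j a)) := by
              rw [Finset.sum_div]
              refine Finset.sum_congr rfl fun a _ => ?_
              rw [div_mul_div_comm]
          _ = 0 := by rw [horth i j hij, zero_div]
  refine ⟨y, hONB, ?_⟩
  have hye : ∀ i a, ∑ b, M a b * y i b = μ i * y i a := by
    intro i a
    rw [hy]
    simp only
    calc ∑ b, M a b * (x i b / √(∑ a, x i a * x i a))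
        = (∑ b, M a b * x i b) / √(∑ a, x i a * x i a) := by
          rw [Finset.sum_div]
          exact Finset.sum_congr rfl fun b _ => by ring
      _ = _ := by rw [he]; ring
  intro a b
  unfold mat
  calc ∑ i, μ i * (y i a * y i b) = ∑ i, (∑ c, M a c * y i c) * y i b := by
        refine Finset.sum_congr rfl fun i _ => ?_
        rw [hye]; ring
    _ = ∑ i, ∑ c, M a c * (y i c * y i b) := by
        refine Finset.sum_congr rfl fun i _ => ?_
        rw [Finset.sum_mul]
        exact Finset.sum_congr rfl fun c _ => by ring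
    _ = ∑ c, ∑ i, M a c * (y i c * y i b) := Finset.sum_comm
    _ = ∑ c, M a c * ((if c = b then 1 else 0) - 1 / (Fintype.card A : ℝ)) := by
        refine Finset.sum_congr rfl fun c _ => ?_
        rw [← Finset.mul_sum, hONB.complete]
    _ = ∑ c, (M a c * (if c = b then 1 else 0)) - (∑ c, M a c) * (1 / (Fintype.card A : ℝ)) := by
        rw [Finset.sum_mul, ← Finset.sum_sub_distrib]
        exact Finset.sum_congr rfl fun c _ => by ring
    _ = M a b := by
        rw [hr, zero_mul, sub_zero]
        simp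

/-- the Laplacian of the weighted star with centre `none` -/
def starM {p : ℕ} (w : Fin p → ℝ) : Option (Fin p) → Option (Fin p) → ℝ
  | none, none => ∑ i, w i
  | none, some i => - w i
  | some i, none => - w i
  | some i, some j => if i = j then w i else 0

lemma star_onb {p : ℕ} (w μ : Fin p → ℝ) (hμ : Function.Injective μ) (hμ0 : ∀ i, μ i ≠ 0)
    (hne : ∀ r i, μ r ≠ w i) (hsec : ∀ r, ∑ i, w i / (μ r - w i) = 1) :
    ∃ y : Fin p → Option (Fin p) → ℝ, ONB y ∧ ∀ a b, mat y μ a b = starM w a b := by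
  refine of_eigen (by simp) (starM w) ?_ ?_ μ hμ hμ0
    (fun r a => a.elim 1 fun i => w i / (w i - μ r)) ?_ ?_
  · rintro (_ | i) (_ | j) <;> simp only [starM]
    by_cases h : i = j
    · subst h; rfl
    · rw [if_neg h, if_neg (Ne.symm h)]
  · rintro (_ | i)
    · rw [Fintype.sum_option]
      simp [starM]
    · rw [Fintype.sum_option]
      simp [starM]
  · intro r h
    have := congrFun h none
    simp at this
  · rintro r (_ | i)
    · rw [Fintype.sum_option]
      simp only [starM, Option.elim]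
      have h1 : ∑ i, -w i * (w i / (w i - μ r)) = - ∑ i, w i + μ r * ∑ i, w i / (μ r - w i) := by
        rw [Finset.mul_sum, ← Finset.sum_neg_distrib, ← Finset.sum_add_distrib]
        refine Finset.sum_congr rfl fun i _ => ?_
        have h2 : w i - μ r ≠ 0 := sub_ne_zero.2 (Ne.symm (hne r i))
        have h3 : μ r - w i ≠ 0 := sub_ne_zero.2 (hne r i)
        have h4 : w i / (w i - μ r) = - (w i / (μ r - w i)) := by
          rw [← neg_sub, div_neg]
        rw [h4]
        field_simp
        ring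
      rw [h1, hsec]
      ring
    · rw [Fintype.sum_option]
      simp only [starM, Option.elim]
      rw [Finset.sum_eq_single i]
      · have h2 : w i - μ r ≠ 0 := sub_ne_zero.2 (Ne.symm (hne r i))
        rw [if_pos rfl]
        field_simp
        ring
      · intro j _ hj
        rw [if_neg (Ne.symm hj), zero_mul]
      · intro h
        exact absurd (Finset.mem_univ _) h

/-- the secular polynomial identity -/
lemma secular {p : ℕ} (w : Fin p → ℝ) :
    ((p : ℝ[X]) + 1) * ∏ i, (X - C (w i)) - X * derivative (∏ i, (X - C (w i))) =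
      ∏ i, (X - C (w i)) - ∑ i, C (w i) * ∏ j ∈ Finset.univ.erase i, (X - C (w j)) := by
  rw [Polynomial.derivative_prod_finset]
  have h1 : ∀ i : Fin p, (∏ j ∈ Finset.univ.erase i, (X - C (w j))) * derivative (X - C (w i)) =
      ∏ j ∈ Finset.univ.erase i, (X - C (w j)) := by
    intro i
    simp
  rw [Finset.sum_congr rfl fun i _ => h1 i]
  have h2 : ∑ i : Fin p, C (w i) * ∏ j ∈ Finset.univ.erase i, (X - C (w j)) =
      X * ∑ i : Fin p, ∏ j ∈ Finset.univ.erase i, (X - C (w j)) -
      (p : ℝ[X]) * ∏ i, (X - C (w i)) := by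
    rw [Finset.mul_sum]
    have h3 : (p : ℝ[X]) * ∏ i, (X - C (w i)) = ∑ i : Fin p, ∏ i, (X - C (w i)) := by simp
    rw [h3, ← Finset.sum_sub_distrib]
    refine Finset.sum_congr rfl fun i _ => ?_
    rw [← Finset.mul_prod_erase _ _ (Finset.mem_univ i)]
    ring
  rw [h2]
  ring

lemma sec_eq {p : ℕ} (w : Fin p → ℝ) (hw : Function.Injective w) (hw0 : ∀ i, 0 < w i) (x : ℝ)
    (hx : (((p : ℝ[X]) + 1) * ∏ i, (X - C (w i)) -
      X * derivative (∏ i, (X - C (w i)))).eval x = 0) :
    (∀ i, x ≠ w i) ∧ ∑ i, w i / (x - w i) = 1 := by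
  rw [secular] at hx
  simp only [eval_sub, eval_prod, eval_finsetSum, eval_mul, eval_C, eval_X] at hx
  have hne : ∀ i, x ≠ w i := by
    rintro i rfl
    have h1 : ∏ j, (w i - w j) = 0 :=
      Finset.prod_eq_zero (Finset.mem_univ i) (sub_self _)
    rw [h1, zero_sub, neg_eq_zero, Finset.sum_eq_single i] at hx
    · rcases mul_eq_zero.1 hx with h | h
      · exact (hw0 i).ne' h
      · obtain ⟨j, hj, h2⟩ := Finset.prod_eq_zero_iff.1 h
        exact (Finset.ne_of_mem_erase hj) (hw (sub_eq_zero.1 h2)).symm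
    · intro j _ hj
      apply mul_eq_zero_of_right
      exact Finset.prod_eq_zero (Finset.mem_erase.2 ⟨Ne.symm hj, Finset.mem_univ i⟩) (sub_self _)
    · intro h
      exact absurd (Finset.mem_univ _) h
  refine ⟨hne, ?_⟩
  have hP : ∏ j, (x - w j) ≠ 0 := Finset.prod_ne_zero_iff.2 fun j _ => sub_ne_zero.2 (hne j)
  have h1 : ∑ i, w i / (x - w i) = (∑ i, w i * ∏ j ∈ Finset.univ.erase i, (x - w j)) /
      ∏ j, (x - w j) := by
    rw [Finset.sum_div]
    refine Finset.sum_congr rfl fun i _ => ?_
    rw [← Finset.mul_prod_erase _ _ (Finset.mem_univ i)]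
    have h2 : ∏ j ∈ Finset.univ.erase i, (x - w j) ≠ 0 :=
      Finset.prod_ne_zero_iff.2 fun j _ => sub_ne_zero.2 (hne j)
    have h3 := sub_ne_zero.2 (hne i)
    field_simp
  rw [h1, div_eq_one_iff_eq hP]
  linarith

/-- a monic polynomial with alternating signs splits -/
lemma split {p : ℕ} (W : ℝ[X]) (hW : W.Monic) (hd : W.natDegree = p) (t : ℕ → ℝ)
    (ht : StrictMono t) (hs : ∀ j ≤ p, 0 < (-1) ^ (p - j) * W.eval (t j)) :
    ∃ w : Fin p → ℝ, (∀ j : Fin p, t j < w j ∧ w j < t (j + 1)) ∧ W = ∏ i, (X - C (w i)) := by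
  have h1 : ∀ j : Fin p, ∃ w, t j < w ∧ w < t (j + 1) ∧ W.eval w = 0 := by
    intro j
    have hj := j.2
    have ha := hs j (by omega)
    have hb := hs (j + 1) (by omega)
    have hlt : t j < t (j + 1) := ht (Nat.lt_succ_self _)
    have he : (p - (j : ℕ)) = (p - (j + 1)) + 1 := by omega
    rw [he, pow_succ] at ha
    have hcont : ContinuousOn (fun x => W.eval x) (Set.Icc (t j) (t (j + 1))) :=
      W.continuous.continuousOn
    rcases neg_one_pow_eq_or ℝ (p - (j + 1)) with h | h
    · rw [h] at ha hb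
      have h2 : (0 : ℝ) ∈ Set.Ioo (W.eval (t j)) (W.eval (t (j + 1))) :=
        ⟨by linarith, by linarith⟩
      obtain ⟨w, hw, hw'⟩ := intermediate_value_Ioo hlt.le hcont h2
      exact ⟨w, hw.1, hw.2, hw'⟩
    · rw [h] at ha hb
      have h2 : (0 : ℝ) ∈ Set.Ioo (W.eval (t (j + 1))) (W.eval (t j)) :=
        ⟨by linarith, by linarith⟩
      obtain ⟨w, hw, hw'⟩ := intermediate_value_Ioo' hlt.le hcont h2
      exact ⟨w, hw.1, hw.2, hw'⟩
  choose w hw1 hw2 hw3 using h1
  have hmono : StrictMono w := by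
    intro i j hij
    have h2 : t ((i : ℕ) + 1) ≤ t j := ht.monotone hij
    linarith [hw2 i, hw1 j]
  refine ⟨w, fun j => ⟨hw1 j, hw2 j⟩, ?_⟩
  apply Polynomial.eq_of_degree_sub_lt_of_eval_finset_eq (Finset.univ.image w)
  · rw [Finset.card_image_of_injective _ hmono.injective, Finset.card_univ, Fintype.card_fin]
    have hm : (∏ i, (X - C (w i))).Monic := monic_prod_of_monic _ _ fun i _ => monic_X_sub_C _
    have hdm : (∏ i, (X - C (w i))).natDegree = p := by
      rw [natDegree_prod_of_monic _ _ fun i _ => monic_X_sub_C _]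
      simp
    have h3 : W.degree = (∏ i, (X - C (w i))).degree := by
      rw [degree_eq_natDegree hW.ne_zero, degree_eq_natDegree hm.ne_zero, hd, hdm]
    have h4 := degree_sub_lt_left h3 hW.ne_zero (by rw [hW.leadingCoeff, hm.leadingCoeff])
    rwa [degree_eq_natDegree hW.ne_zero, hd] at h4
  · intro x hx
    rw [Finset.mem_image] at hx
    obtain ⟨i, _, rfl⟩ := hx
    rw [hw3, eval_prod]
    symm
    apply Finset.prod_eq_zero (Finset.mem_univ i)
    simp

/-- the inverse of `W ↦ (p+1) W - X W'` on polynomials of degree at most `p` -/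
noncomputable def TT (p : ℕ) (M : ℝ[X]) : ℝ[X] :=
  ∑ k ∈ Finset.range (p + 1), C (M.coeff k / ((p : ℝ) + 1 - k)) * X ^ k

lemma TT_coeff (p : ℕ) (M : ℝ[X]) (k : ℕ) :
    (TT p M).coeff k = if k ≤ p then M.coeff k / ((p : ℝ) + 1 - k) else 0 := by
  unfold TT
  rw [finsetSum_coeff]
  simp only [coeff_C_mul, coeff_X_pow]
  split_ifs with h
  · rw [Finset.sum_eq_single k]
    · simp
    · intro b _ hb
      rw [if_neg (Ne.symm hb), mul_zero]
    · intro hk
      exact absurd (Finset.mem_range.2 (by omega)) hk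
  · apply Finset.sum_eq_zero
    intro b hb
    rw [Finset.mem_range] at hb
    rw [if_neg (by omega), mul_zero]

lemma coeff_SS (p : ℕ) (W : ℝ[X]) (k : ℕ) :
    (((p : ℝ[X]) + 1) * W - X * derivative W).coeff k = ((p : ℝ) + 1 - k) * W.coeff k := by
  have h1 : ((p : ℝ[X]) + 1) = C ((p : ℝ) + 1) := by simp
  rw [h1, coeff_sub, coeff_C_mul]
  cases k with
  | zero => simp
  | succ k =>
    rw [coeff_X_mul, coeff_derivative]
    push_cast
    ring

lemma SS_TT (p : ℕ) (M : ℝ[X]) (hM : M.natDegree ≤ p) :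
    ((p : ℝ[X]) + 1) * TT p M - X * derivative (TT p M) = M := by
  ext k
  rw [coeff_SS, TT_coeff]
  split_ifs with h
  · have : (p : ℝ) + 1 - k ≠ 0 := by
      have : (k : ℝ) ≤ p := by exact_mod_cast h
      linarith
    field_simp
  · rw [mul_zero, coeff_eq_zero_of_natDegree_lt (by omega)]

lemma TT_SS (p : ℕ) (W : ℝ[X]) (hW : W.natDegree ≤ p) :
    TT p (((p : ℝ[X]) + 1) * W - X * derivative W) = W := by
  ext k
  rw [TT_coeff, coeff_SS]
  split_ifs with h
  · have : (p : ℝ) + 1 - k ≠ 0 := by
      have : (k : ℝ) ≤ p := by exact_mod_cast h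
      linarith
    field_simp
  · rw [coeff_eq_zero_of_natDegree_lt (by omega)]

lemma TT_monic (p : ℕ) (M : ℝ[X]) (hM : M.Monic) (hd : M.natDegree = p) :
    (TT p M).Monic ∧ (TT p M).natDegree = p := by
  have h1 : (TT p M).coeff p = 1 := by
    rw [TT_coeff, if_pos le_rfl]
    have : M.coeff p = 1 := by rw [← hd]; exact hM
    rw [this]
    norm_num
  have h2 : (TT p M).natDegree ≤ p := by
    rw [natDegree_le_iff_coeff_eq_zero]
    intro k hk
    rw [TT_coeff, if_neg (by omega)]
  have h3 : (TT p M).natDegree = p := by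
    apply le_antisymm h2
    apply le_natDegree_of_ne_zero
    rw [h1]
    exact one_ne_zero
  refine ⟨?_, h3⟩
  unfold Monic leadingCoeff
  rw [h3, h1]

lemma SS_monic (p : ℕ) (W : ℝ[X]) (hM : W.Monic) (hd : W.natDegree = p) :
    (((p : ℝ[X]) + 1) * W - X * derivative W).Monic ∧
    (((p : ℝ[X]) + 1) * W - X * derivative W).natDegree = p := by
  have h1 : (((p : ℝ[X]) + 1) * W - X * derivative W).coeff p = 1 := by
    rw [coeff_SS]
    have : W.coeff p = 1 := by rw [← hd]; exact hM
    rw [this]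
    ring
  have h2 : (((p : ℝ[X]) + 1) * W - X * derivative W).natDegree ≤ p := by
    rw [natDegree_le_iff_coeff_eq_zero]
    intro k hk
    rw [coeff_SS, coeff_eq_zero_of_natDegree_lt (by omega), mul_zero]
  have h3 : (((p : ℝ[X]) + 1) * W - X * derivative W).natDegree = p := by
    apply le_antisymm h2
    apply le_natDegree_of_ne_zero
    rw [h1]
    exact one_ne_zero
  refine ⟨?_, h3⟩
  unfold Monic leadingCoeff
  rw [h3, h1]

lemma coeff_cont {p : ℕ} (s : Finset (Fin p)) (k : ℕ) :
    Continuous fun μ : Fin p → ℝ => (∏ i ∈ s, (X - C (μ i))).coeff k := by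
  classical
  induction s using Finset.induction_on generalizing k with
  | empty => simp only [Finset.prod_empty]; exact continuous_const
  | insert a s ha ih =>
    simp only [Finset.prod_insert ha]
    cases k with
    | zero =>
      simp only [mul_coeff_zero, coeff_sub, coeff_X_zero, coeff_C_zero, zero_sub]
      exact ((continuous_apply a).neg).mul (ih 0)
    | succ k =>
      have : ∀ μ : Fin p → ℝ, ((X - C (μ a)) * ∏ i ∈ s, (X - C (μ i))).coeff (k + 1) =
          (∏ i ∈ s, (X - C (μ i))).coeff k - μ a * (∏ i ∈ s, (X - C (μ i))).coeff (k + 1) := by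
        intro μ
        rw [sub_mul, coeff_sub, coeff_X_mul, coeff_C_mul]
      simp only [this]
      exact (ih k).sub ((continuous_apply a).mul (ih (k + 1)))

lemma eval_cont {p : ℕ} (x : ℝ) :
    Continuous fun μ : Fin p → ℝ => (TT p (∏ i, (X - C (μ i)))).eval x := by
  have : ∀ μ : Fin p → ℝ, (TT p (∏ i, (X - C (μ i)))).eval x =
      ∑ k ∈ Finset.range (p + 1), (∏ i, (X - C (μ i))).coeff k / ((p : ℝ) + 1 - k) * x ^ k := by
    intro μ
    unfold TT
    simp [eval_finsetSum]
  simp only [this]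
  refine continuous_finsetSum _ fun k _ => ?_
  exact ((coeff_cont _ k).div_const _).mul continuous_const

lemma sgn_prod (p j : ℕ) :
    ∏ l : Fin p, (if j ≤ (l : ℕ) then (-1 : ℝ) else 1) = (-1) ^ (p - j) := by
  rw [Fin.prod_univ_eq_prod_range (fun l => if j ≤ l then (-1 : ℝ) else 1) p]
  induction p with
  | zero => simp
  | succ p ih =>
    rw [Finset.prod_range_succ, ih]
    by_cases h : j ≤ p
    · rw [if_pos h, show p + 1 - j = (p - j) + 1 by omega, pow_succ]
    · rw [if_neg h, show p + 1 - j = 0 by omega, show p - j = 0 by omega]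
      simp

/-- a box of spectra realised by stars -/
theorem star_open (p : ℕ) (hp : 1 ≤ p) : ∃ (μ0 : Fin p → ℝ) (η : ℝ), 0 < η ∧
    (∀ i, η < μ0 i) ∧ (∀ i j, i < j → μ0 i + 2 * η < μ0 j) ∧
    ∀ μ : Fin p → ℝ, (∀ i, |μ i - μ0 i| < η) →
      ∃ y : Fin p → Option (Fin p) → ℝ, ONB y ∧ (∀ a b, a ≠ b → mat y μ a b ≤ 0) ∧
        ∀ i j : Fin p, i ≠ j → mat y μ (some i) (some j) = 0 := by
  classical
  set w0 : Fin p → ℝ := fun i => (i : ℝ) + 1 with hw0
  set W0 : ℝ[X] := ∏ i, (X - C (w0 i)) with hW0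
  have hW0m : W0.Monic := monic_prod_of_monic _ _ fun i _ => monic_X_sub_C _
  have hW0d : W0.natDegree = p := by
    rw [hW0, natDegree_prod_of_monic _ _ fun i _ => monic_X_sub_C _]
    simp
  set M0 : ℝ[X] := ((p : ℝ[X]) + 1) * W0 - X * derivative W0 with hM0
  obtain ⟨hM0m, hM0d⟩ := SS_monic p W0 hW0m hW0d
  rw [← hM0] at hM0m hM0d
  -- a large point
  obtain ⟨T, hT1, hT2⟩ : ∃ T : ℝ, 1 < T ∧ 0 < M0.eval ((p : ℝ) + T) := by
    have h1 : Filter.Tendsto (fun x => M0.eval x) Filter.atTop Filter.atTop := by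
      apply Polynomial.tendsto_atTop_of_leadingCoeff_nonneg
      · rw [degree_eq_natDegree hM0m.ne_zero, hM0d]
        exact_mod_cast hp
      · rw [hM0m.leadingCoeff]
        exact zero_le_one
    have h2 := (h1.comp (Filter.tendsto_atTop_add_const_left Filter.atTop (p : ℝ)
      Filter.tendsto_id)).eventually_gt_atTop 0
    obtain ⟨T, hT, hT'⟩ := (h2.and (Filter.eventually_gt_atTop (1 : ℝ))).exists
    exact ⟨T, hT', hT⟩
  -- roots of `M0`
  obtain ⟨μ0, hμ0, hμ0'⟩ := split M0 hM0m hM0d
    (fun j => if j < p then (j : ℝ) + 1 else (j : ℝ) + T) (by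
      intro i j hij
      have hij' : (i : ℝ) + 1 ≤ j := by exact_mod_cast hij
      beta_reduce
      split_ifs with h1 h2 h2
      · linarith
      · linarith
      · omega
      · linarith) (by
    intro j hj
    beta_reduce
    by_cases h : j < p
    · rw [if_pos h]
      have h1 : M0.eval ((j : ℝ) + 1) = - (w0 ⟨j, h⟩ *
          ∏ l ∈ Finset.univ.erase ⟨j, h⟩, (w0 ⟨j, h⟩ - w0 l)) := by
        rw [hM0, hW0, secular]
        simp only [eval_sub, eval_prod, eval_finsetSum, eval_mul, eval_C, eval_X]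
        have e : (j : ℝ) + 1 = w0 ⟨j, h⟩ := rfl
        rw [e, Finset.prod_eq_zero (Finset.mem_univ (⟨j, h⟩ : Fin p)) (sub_self _), zero_sub,
          Finset.sum_eq_single (⟨j, h⟩ : Fin p)]
        · intro l _ hl
          apply mul_eq_zero_of_right
          exact Finset.prod_eq_zero (Finset.mem_erase.2 ⟨Ne.symm hl, Finset.mem_univ _⟩)
            (sub_self _)
        · intro h
          exact absurd (Finset.mem_univ _) h
      have h2 : 0 < (-1) ^ (p - (j + 1)) *
          ∏ l ∈ Finset.univ.erase (⟨j, h⟩ : Fin p), (w0 ⟨j, h⟩ - w0 l) := by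
        rw [← sgn_prod p (j + 1), ← Finset.mul_prod_erase _ _
          (Finset.mem_univ (⟨j, h⟩ : Fin p)), if_neg (by simp), one_mul,
          ← Finset.prod_mul_distrib]
        apply Finset.prod_pos
        intro l hl
        have hl' : (l : ℕ) ≠ j := by
          intro h0
          exact (Finset.ne_of_mem_erase hl) (Fin.ext h0)
        rw [hw0]
        simp only
        split_ifs with h3
        · have : ((j : ℝ) + 1) ≤ (l : ℝ) := by exact_mod_cast h3
          linarith
        · have : ((l : ℝ) + 1) ≤ (j : ℝ) := by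
            have : (l : ℕ) + 1 ≤ j := by omega
            exact_mod_cast this
          linarith
      have h3 : (-1 : ℝ) ^ (p - j) = - (-1) ^ (p - (j + 1)) := by
        rw [show p - j = (p - (j + 1)) + 1 by omega, pow_succ]
        ring
      have h4 : 0 < w0 ⟨j, h⟩ := by
        rw [hw0]
        simp only
        positivity
      rw [h1, h3]
      have h5 := mul_pos h4 h2
      linarith
    · rw [if_neg h]
      have : j = p := by omega
      subst this
      rw [Nat.sub_self, pow_zero, one_mul]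
      exact hT2)
  have hpos : ∀ i, 0 < μ0 i := by
    intro i
    have := (hμ0 i).1
    rw [if_pos i.2] at this
    have h1 : (0 : ℝ) ≤ (i : ℕ) := Nat.cast_nonneg _
    linarith
  have hmono : ∀ i j, i < j → μ0 i < μ0 j := by
    intro i j hij
    have h1 := (hμ0 i).2
    have h2 := (hμ0 j).1
    rw [if_pos j.2] at h2
    rw [if_pos (by omega)] at h1
    have h3 : ((i : ℕ) : ℝ) + 1 ≤ (j : ℕ) := by exact_mod_cast hij
    push_cast at h1
    linarith
  -- the open set
  have hopen : IsOpen {μ : Fin p → ℝ | ∀ j ∈ Finset.range (p + 1),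
      0 < (-1) ^ (p - j) * (TT p (∏ i, (X - C (μ i)))).eval ((j : ℝ) + 1 / 2)} := by
    have : {μ : Fin p → ℝ | ∀ j ∈ Finset.range (p + 1),
      0 < (-1) ^ (p - j) * (TT p (∏ i, (X - C (μ i)))).eval ((j : ℝ) + 1 / 2)} =
      ⋂ j ∈ Finset.range (p + 1), {μ : Fin p → ℝ |
        0 < (-1) ^ (p - j) * (TT p (∏ i, (X - C (μ i)))).eval ((j : ℝ) + 1 / 2)} := by
      ext μ
      simp
    rw [this]
    apply isOpen_biInter_finset
    intro j _
    exact isOpen_lt continuous_const (continuous_const.mul (eval_cont _))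
  have hmem : μ0 ∈ {μ : Fin p → ℝ | ∀ j ∈ Finset.range (p + 1),
      0 < (-1) ^ (p - j) * (TT p (∏ i, (X - C (μ i)))).eval ((j : ℝ) + 1 / 2)} := by
    intro j hj
    rw [Finset.mem_range] at hj
    rw [← hμ0', hM0, TT_SS p W0 hW0d.le, hW0, eval_prod, ← sgn_prod p j,
      ← Finset.prod_mul_distrib]
    apply Finset.prod_pos
    intro l _
    simp only [eval_sub, eval_X, eval_C, hw0]
    split_ifs with h3
    · have : (j : ℝ) ≤ (l : ℝ) := by exact_mod_cast h3
      linarith
    · have : ((l : ℝ) + 1) ≤ (j : ℝ) := by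
        have : (l : ℕ) + 1 ≤ j := by omega
        exact_mod_cast this
      linarith
  obtain ⟨ε, hε, hball⟩ := Metric.isOpen_iff.1 hopen μ0 hmem
  -- choice of `η`
  obtain ⟨η, hη0, hη1, hη2, hη3⟩ : ∃ η : ℝ, 0 < η ∧ η < ε ∧ (∀ i, η < μ0 i) ∧
      ∀ i j, i < j → μ0 i + 2 * η < μ0 j := by
    have h1 : ∀ᶠ η in nhdsWithin (0 : ℝ) (Set.Ioi 0), 0 < η := self_mem_nhdsWithin
    have h2 : ∀ᶠ η in nhdsWithin (0 : ℝ) (Set.Ioi 0), η < ε :=
      nhdsWithin_le_nhds (Iio_mem_nhds hε)
    have h3 : ∀ᶠ η in nhdsWithin (0 : ℝ) (Set.Ioi 0), ∀ i, η < μ0 i := by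
      rw [Filter.eventually_all]
      intro i
      exact nhdsWithin_le_nhds (Iio_mem_nhds (hpos i))
    have h4 : ∀ᶠ η in nhdsWithin (0 : ℝ) (Set.Ioi 0), ∀ i j, i < j → μ0 i + 2 * η < μ0 j := by
      rw [Filter.eventually_all]
      intro i
      rw [Filter.eventually_all]
      intro j
      by_cases hij : i < j
      · have h5 : (0 : ℝ) < (μ0 j - μ0 i) / 2 := by linarith [hmono i j hij]
        have h6 : ∀ᶠ η in nhdsWithin (0 : ℝ) (Set.Ioi 0), η < (μ0 j - μ0 i) / 2 :=
          nhdsWithin_le_nhds (Iio_mem_nhds h5)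
        filter_upwards [h6] with η hη _
        linarith
      · exact Filter.Eventually.of_forall fun η h => absurd h hij
    obtain ⟨η, h5, h6, h7, h8⟩ := (h1.and (h2.and (h3.and h4))).exists
    exact ⟨η, h5, h6, h7, h8⟩
  refine ⟨μ0, η, hη0, hη2, hη3, ?_⟩
  intro μ hμ
  have hμball : μ ∈ Metric.ball μ0 ε := by
    rw [Metric.mem_ball, dist_pi_lt_iff hε]
    intro i
    rw [Real.dist_eq]
    exact (hμ i).trans hη1
  have halt := hball hμball
  have hMm : (∏ i, (X - C (μ i))).Monic := monic_prod_of_monic _ _ fun i _ => monic_X_sub_C _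
  have hMd : (∏ i, (X - C (μ i))).natDegree = p := by
    rw [natDegree_prod_of_monic _ _ fun i _ => monic_X_sub_C _]
    simp
  obtain ⟨hTm, hTd⟩ := TT_monic p _ hMm hMd
  obtain ⟨w, hw, hW⟩ := split (TT p (∏ i, (X - C (μ i)))) hTm hTd
    (fun j => (j : ℝ) + 1 / 2) (by
      intro i j hij
      have hij' : (i : ℝ) + 1 ≤ j := by exact_mod_cast hij
      beta_reduce
      linarith) (by
      intro j hj
      exact halt j (Finset.mem_range.2 (by omega)))
  have hw0 : ∀ i, 0 < w i := by
    intro i
    have := (hw i).1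
    have h1 : (0 : ℝ) ≤ (i : ℕ) := Nat.cast_nonneg _
    linarith
  have hwmono : StrictMono w := by
    intro i j hij
    have h1 := (hw i).2
    have h2 := (hw j).1
    have h3 : ((i : ℕ) : ℝ) + 1 ≤ (j : ℕ) := by exact_mod_cast hij
    push_cast at h1
    linarith
  have hsec : ∀ r, (∀ i, μ r ≠ w i) ∧ ∑ i, w i / (μ r - w i) = 1 := by
    intro r
    apply sec_eq w hwmono.injective hw0
    rw [← hW, SS_TT p _ hMd.le, eval_prod]
    apply Finset.prod_eq_zero (Finset.mem_univ r)
    simp
  have hinj : Function.Injective μ := by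
    intro i j hij
    by_contra hne
    rcases lt_or_gt_of_ne hne with h | h
    · have h1 := hη3 i j h
      have h2 := abs_lt.1 (hμ i)
      have h3 := abs_lt.1 (hμ j)
      linarith
    · have h1 := hη3 j i h
      have h2 := abs_lt.1 (hμ i)
      have h3 := abs_lt.1 (hμ j)
      linarith
  have hne0 : ∀ i, μ i ≠ 0 := by
    intro i h0
    have h1 := hη2 i
    have h2 := abs_lt.1 (hμ i)
    linarith
  obtain ⟨y, hy, hy'⟩ := star_onb w μ hinj hne0 (fun r i => (hsec r).1 i) fun r => (hsec r).2
  refine ⟨y, hy, ?_, ?_⟩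
  · intro a b hab
    rw [hy']
    rcases a with _ | i <;> rcases b with _ | j
    · exact absurd rfl hab
    · simp only [starM]
      linarith [hw0 j]
    · simp only [starM]
      linarith [hw0 i]
    · simp only [starM]
      rw [if_neg (fun h => hab (by rw [h]))]
  · intro i j hij
    rw [hy']
    simp only [starM]
    rw [if_neg hij]

end Pool.Agent.Q260.LS
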