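import Mathlib
import Pool.Agent.Q260.LS.Lin
import Pool.Agent.Q260.LS.Star
import Pool.Agent.Q260.LS.Asym

/-! Realising good tuples. -/

open MeasureTheory Filter Topology

namespace Pool.Agent.Q260.LS

lemma mat_smul {A I : Type} [Fintype I] (y : I → A → ℝ) (μ : I → ℝ) (s : ℝ) (a b : A) :
    mat y (fun i => s * μ i) a b = s * mat y μ a b := by
  unfold mat
  rw [Finset.mul_sum]
  exact Finset.sum_congr rfl fun i _ => by ring

/-- realising a tuple of eigenvalues -/
theorem realize {p : ℕ} {μ0 : Fin p → ℝ} {η : ℝ}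
    (hstar : ∀ μ : Fin p → ℝ, (∀ i, |μ i - μ0 i| < η) →
      ∃ y : Fin p → Option (Fin p) → ℝ, ONB y ∧ (∀ a b, a ≠ b → mat y μ a b ≤ 0) ∧
        ∀ i j : Fin p, i ≠ j → mat y μ (some i) (some j) = 0)
    {V : Type} [Fintype V] (G : SimpleGraph V) (b : ℕ) (e : V ≃ Option (Fin p) ⊕ Fin (b + 1))
    (he : ∀ u v, u ≠ v → ¬ G.Adj u v → ∃ r r' : Fin p,
      e u = Sum.inl (some r) ∧ e v = Sum.inl (some r'))
    (l : ℝ) (μ : Fin p → ℝ) (ν : Fin b → ℝ) (s : ℝ) (hl : 0 ≤ l) (hs : 0 < s)
    (hμ : ∀ r, |s * (μ r - l / ((p + 1 : ℕ) + (b + 1 : ℕ)) * (b + 1 : ℕ)) - μ0 r| < η)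
    (hν : ∀ j, l / ((p + 1 : ℕ) + (b + 1 : ℕ)) * (p + 1 : ℕ) ≤ ν j) :
    Realizable G (Finset.univ.val.map (jev l μ ν)) := by
  classical
  obtain ⟨y, hy, hy1, hy2⟩ := hstar _ hμ
  obtain ⟨z, hz, hz1⟩ := full b (fun j => ν j - l / ((p + 1 : ℕ) + (b + 1 : ℕ)) * (p + 1 : ℕ))
    (fun j => by linarith [hν j])
  have hcA : (Fintype.card (Option (Fin p)) : ℝ) = (p + 1 : ℕ) := by
    simp
  have hcB : (Fintype.card (Fin (b + 1)) : ℝ) = (b + 1 : ℕ) := by
    simp
  have hcr := join_cross hy hz l μ ν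
  rw [hcA, hcB] at hcr
  have hl' : 0 ≤ l / (((p + 1 : ℕ) : ℝ) + ((b + 1 : ℕ) : ℝ)) := by positivity
  have hL : ∀ a a' : Option (Fin p), a ≠ a' →
      mat (join y z) (jev l μ ν) (Sum.inl a) (Sum.inl a') =
      (1 / s) * mat y (fun r => s * (μ r - l / ((p + 1 : ℕ) + (b + 1 : ℕ)) * (b + 1 : ℕ))) a a' := by
    intro a a' haa
    rw [join_left hy hz l μ ν haa, hcA, hcB, mat_smul, ← mul_assoc, one_div,
      inv_mul_cancel₀ hs.ne', one_mul]
  have hR : ∀ c c' : Fin (b + 1), c ≠ c' →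
      mat (join y z) (jev l μ ν) (Sum.inr c) (Sum.inr c') ≤ 0 := by
    intro c c' hcc
    rw [join_right hy hz l μ ν hcc, hcA, hcB]
    exact hz1 c c' hcc
  have hre := (hy.join hz).reindex e (Equiv.refl _)
  refine hre.realizable (jev l μ ν) G ?_ ?_
  · intro u v huv
    have h1 := mat_reindex (join y z) (jev l μ ν) e (Equiv.refl _) u v
    have h2 : (fun i => jev l μ ν ((Equiv.refl (Option (Fin p ⊕ Fin b))) i)) = jev l μ ν := rfl
    rw [h2] at h1
    rw [h1]
    have hne : e u ≠ e v := fun h => huv (e.injective h)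
    rcases ha : e u with x | x <;> rcases hb : e v with x' | x'
    · have hxx : x ≠ x' := by
        rintro rfl
        exact hne (by rw [ha, hb])
      rw [hL x x' hxx]
      exact mul_nonpos_of_nonneg_of_nonpos (by positivity) (hy1 x x' hxx)
    · rw [hcr]
      linarith
    · rw [mat_symm, hcr]
      linarith
    · have hxx : x ≠ x' := by
        rintro rfl
        exact hne (by rw [ha, hb])
      exact hR x x' hxx
  · intro u v huv hadj
    have h1 := mat_reindex (join y z) (jev l μ ν) e (Equiv.refl _) u v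
    have h2 : (fun i => jev l μ ν ((Equiv.refl (Option (Fin p ⊕ Fin b))) i)) = jev l μ ν := rfl
    rw [h2] at h1
    rw [h1]
    obtain ⟨r, r', hr, hr'⟩ := he u v huv hadj
    have hrr : r ≠ r' := by
      rintro rfl
      exact huv (e.injective (by rw [hr, hr']))
    rw [hr, hr', hL _ _ (fun h => hrr (Option.some_injective _ h)), hy2 r r' hrr, mul_zero]

/-- the equivalence extending an injection -/
lemma ext_equiv {p b d : ℕ} (hd : d + 1 = p + b + 1) (f : Option (Fin p) → Fin (d + 1))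
    (hf : Function.Injective f) :
    ∃ F : Option (Fin p ⊕ Fin b) ≃ Fin (d + 1), F none = f none ∧
      ∀ r, F (some (Sum.inl r)) = f (some r) := by
  classical
  have hc : Fintype.card {y : Fin (d + 1) // y ∉ Set.range f} = b := by
    have h1 : Fintype.card {y : Fin (d + 1) // y ∈ Set.range f} = p + 1 := by
      have := Fintype.card_congr (Equiv.ofInjective f hf)
      rw [Fintype.card_option, Fintype.card_fin] at this
      exact this.symm
    have h2 := Fintype.card_subtype_compl (fun y : Fin (d + 1) => y ∈ Set.range f)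
    rw [h1, Fintype.card_fin] at h2
    rw [h2]
    omega
  let g := (Fintype.equivFinOfCardEq hc).symm
  let F : Option (Fin p ⊕ Fin b) → Fin (d + 1) := fun i => match i with
    | none => f none
    | some (Sum.inl r) => f (some r)
    | some (Sum.inr j) => (g j).1
  have hF : Function.Injective F := by
    rintro (_ | (r | j)) (_ | (r' | j')) h
    · rfl
    · exact absurd (hf h) (by simp)
    · exact absurd ⟨none, h⟩ (g j').2
    · exact absurd (hf h) (by simp)
    · have := hf h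
      rw [Option.some_inj] at this
      rw [this]
    · exact absurd ⟨some r, h⟩ (g j').2
    · exact absurd ⟨none, h.symm⟩ (g j).2
    · exact absurd ⟨some r', h.symm⟩ (g j).2
    · have := g.injective (Subtype.ext h)
      rw [this]
  have hFb : Function.Bijective F := by
    rw [Fintype.bijective_iff_injective_and_card]
    refine ⟨hF, ?_⟩
    simp only [Fintype.card_option, Fintype.card_sum, Fintype.card_fin]
    omega
  exact ⟨Equiv.ofBijective F hFb, rfl, fun r => rfl⟩

/-- the tuple of a point in the chart -/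
def tup {d : ℕ} (x : Fin d → ℝ) : Fin (d + 1) → ℝ := Fin.snoc x (1 - ∑ i, x i)

/-- windows -/
noncomputable def wa {p : ℕ} (μ0 : Fin p → ℝ) (α : ℝ) : Option (Fin p) → ℝ
  | none => α
  | some r => μ0 r

/-- windows -/
noncomputable def wb {p : ℕ} (μ0 : Fin p → ℝ) (η α : ℝ) : Option (Fin p) → ℝ
  | none => 2 * α
  | some r => μ0 r + η / 2

theorem real_good {p : ℕ} {μ0 : Fin p → ℝ} {η α : ℝ} (hη : 0 < η)
    (hα : 0 < α) (hαη : 2 * α < η / 2)
    (hμ0 : ∀ i, η < μ0 i) (hμ1 : ∀ i j, i < j → μ0 i + 2 * η < μ0 j)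
    (hstar : ∀ μ : Fin p → ℝ, (∀ i, |μ i - μ0 i| < η) →
      ∃ y : Fin p → Option (Fin p) → ℝ, ONB y ∧ (∀ a b, a ≠ b → mat y μ a b ≤ 0) ∧
        ∀ i j : Fin p, i ≠ j → mat y μ (some i) (some j) = 0)
    {V : Type} [Fintype V] (G : SimpleGraph V) (b : ℕ) (e : V ≃ Option (Fin p) ⊕ Fin (b + 1))
    (he : ∀ u v, u ≠ v → ¬ G.Adj u v → ∃ r r' : Fin p,
      e u = Sum.inl (some r) ∧ e v = Sum.inl (some r'))
    {d : ℕ} (hd : d = p + b) (hd0 : 0 < d) {x : Fin d → ℝ}
    (hx : x ∈ Good d ((p + 1) * (2 * α) / (d : ℝ) ^ 2) (wa μ0 α) (wb μ0 η α)) :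
    Realizable G (Finset.univ.val.map (tup x)) := by
  classical
  obtain ⟨hxD, hx1, hx2, hx3⟩ := hx
  have hdR : (0 : ℝ) < d := by exact_mod_cast hd0
  choose f hf using hx3
  -- injectivity
  have hdf : ∀ r, wa μ0 α r ≤ d * x (f r) ∧ d * x (f r) < wb μ0 η α r := by
    intro r
    obtain ⟨h1, h2⟩ := hf r
    rw [div_le_iff₀ hdR] at h1
    rw [lt_div_iff₀ hdR] at h2
    exact ⟨by linarith, by linarith⟩
  have hfi : Function.Injective f := by
    intro r r' hrr
    have h1 := hdf r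
    have h2 := hdf r'
    rw [hrr] at h1
    rcases r with _ | r <;> rcases r' with _ | r'
    · rfl
    · simp only [wa, wb] at h1 h2
      linarith [hμ0 r']
    · simp only [wa, wb] at h1 h2
      linarith [hμ0 r]
    · simp only [wa, wb] at h1 h2
      rcases lt_trichotomy r r' with h | h | h
      · linarith [hμ1 r r' h]
      · rw [h]
      · linarith [hμ1 r' r h]
  obtain ⟨F, hF0, hF1⟩ := ext_equiv (p := p) (b := b) (by omega) (fun r => (f r).castSucc)
    (fun r r' h => hfi (Fin.castSucc_injective _ h))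
  have hT : ∀ k, ((p + 1 : ℝ) * (2 * α) / (d : ℝ) ^ 2) ≤ tup x k := by
    intro k
    refine Fin.lastCases ?_ (fun i => ?_) k
    · rw [tup, Fin.snoc_last]
      exact hx2
    · rw [tup, Fin.snoc_castSucc]
      exact hx1 i
  have hfc : ∀ r, tup x ((f r).castSucc) = x (f r) := fun r => by
    rw [tup, Fin.snoc_castSucc]
  have hval : (fun i => tup x (F i)) = jev (x (f none)) (fun r => x (f (some r)))
      (fun j => tup x (F (some (Sum.inr j)))) := by
    funext i
    rcases i with _ | (r | j)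
    · change tup x (F none) = x (f none)
      rw [hF0, hfc]
    · change tup x (F (some (Sum.inl r))) = x (f (some r))
      rw [hF1, hfc]
    · rfl
  have hms : Finset.univ.val.map (tup x) = Finset.univ.val.map (fun i => tup x (F i)) := by
    rw [← Multiset.map_univ_val_equiv F, Multiset.map_map]
    rfl
  rw [hms, hval]
  have hN : ((p + 1 : ℕ) : ℝ) + ((b + 1 : ℕ) : ℝ) = d + 2 := by
    rw [hd]
    push_cast
    ring
  have hl1 := hdf none
  simp only [wa, wb] at hl1
  have hl0 : 0 < x (f none) := by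
    have : 0 < (d : ℝ) * x (f none) := by linarith
    exact (mul_pos_iff_of_pos_left hdR).1 this
  refine realize hstar G b e he _ _ _ d hl0.le hdR ?_ ?_
  · intro r
    rw [hN]
    have h1 := hdf (some r)
    simp only [wa, wb] at h1
    have h2 : 0 ≤ x (f none) / ((d : ℝ) + 2) * ((b + 1 : ℕ) : ℝ) := by positivity
    have h3 : x (f none) / ((d : ℝ) + 2) * ((b + 1 : ℕ) : ℝ) ≤ x (f none) := by
      rw [div_mul_eq_mul_div, div_le_iff₀ (by positivity)]
      apply mul_le_mul_of_nonneg_left _ hl0.le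
      rw [hd]
      push_cast
      linarith [(Nat.cast_nonneg p : (0 : ℝ) ≤ p)]
    rw [abs_lt, mul_sub]
    have h4 : (d : ℝ) * (x (f none) / ((d : ℝ) + 2) * ((b + 1 : ℕ) : ℝ)) ≤ d * x (f none) :=
      mul_le_mul_of_nonneg_left h3 hdR.le
    have h5 : 0 ≤ (d : ℝ) * (x (f none) / ((d : ℝ) + 2) * ((b + 1 : ℕ) : ℝ)) :=
      mul_nonneg hdR.le h2
    constructor <;> linarith
  · intro j
    rw [hN]
    refine le_trans ?_ (hT _)
    rw [div_mul_eq_mul_div, div_le_div_iff₀ (by positivity) (by positivity)]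
    have h6 : x (f none) * d ≤ 2 * α := by linarith
    push_cast
    have h7 : (d : ℝ) * (d : ℝ) ≤ d * (d + 2) := by nlinarith
    calc x (f none) * ((p : ℝ) + 1) * (d : ℝ) ^ 2
        = ((p : ℝ) + 1) * ((x (f none) * d) * d) := by ring
      _ ≤ ((p : ℝ) + 1) * ((2 * α) * d) := by gcongr
      _ ≤ ((p : ℝ) + 1) * ((2 * α) * (d + 2)) := by gcongr; linarith
      _ = ((p : ℝ) + 1) * (2 * α) * (d + 2) := by ring

end Pool.Agent.Q260.LS
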