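import Mathlib
import Pool.Agent.Q260.LS.Comb

/-! Hausdorff measure on the hyperplane of tuples with sum one. -/

open MeasureTheory Filter Topology

namespace Pool.Agent.Q260.LS

/-- linear part of the chart -/
noncomputable def linMap (d : ℕ) : (Fin d → ℝ) →ₗ[ℝ] EuclideanSpace ℝ (Fin (d + 1)) where
  toFun x := WithLp.toLp 2 (Fin.snoc x (-∑ i, x i) : Fin (d + 1) → ℝ)
  map_add' x y := by
    ext k
    refine Fin.lastCases ?_ (fun i => ?_) k
    · simp [Finset.sum_add_distrib]
      ring
    · simp
  map_smul' c x := by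
    ext k
    refine Fin.lastCases ?_ (fun i => ?_) k
    · simp [Finset.mul_sum]
    · simp

lemma linMap_ker (d : ℕ) : LinearMap.ker (linMap d) = ⊥ := by
  rw [LinearMap.ker_eq_bot']
  intro x hx
  funext i
  have h1 := congrArg (fun z : EuclideanSpace ℝ (Fin (d + 1)) => z i.castSucc) hx
  simpa [linMap] using h1

/-- the chart -/
noncomputable def chart {d : ℕ} (x : Fin d → ℝ) : EuclideanSpace ℝ (Fin (d + 1)) :=
  WithLp.toLp 2 (tup x)

lemma chart_eq {d : ℕ} (x : Fin d → ℝ) : chart x = linMap d x + chart 0 := by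
  ext k
  refine Fin.lastCases ?_ (fun i => ?_) k
  · simp [chart, linMap, tup]
    ring
  · simp [chart, linMap, tup]

open MeasureTheory.Measure in
lemma haus (d : ℕ) : ∃ c : ℝ, 0 < c ∧ ∀ S : Set (Fin d → ℝ),
    (μH[(d : ℝ)] : Measure (EuclideanSpace ℝ (Fin (d + 1)))).real (chart '' S) =
      c * (volume : Measure (Fin d → ℝ)).real S := by
  have hme : MeasurableEmbedding (linMap d) :=
    (LinearMap.isClosedEmbedding_of_injective (linMap_ker d)).measurableEmbedding
  set ν : Measure (Fin d → ℝ) := Measure.comap (linMap d)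
    (μH[(d : ℝ)] : Measure (EuclideanSpace ℝ (Fin (d + 1)))) with hν
  have hνa : ∀ s, ν s = (μH[(d : ℝ)] : Measure (EuclideanSpace ℝ (Fin (d + 1)))) (linMap d '' s) :=
    fun s => hme.comap_apply _ s
  have hvol : (μH[(d : ℝ)] : Measure (Fin d → ℝ)) = volume := by
    have := hausdorffMeasure_pi_real (ι := Fin d)
    rwa [Fintype.card_fin] at this
  have htr : ∀ (v : EuclideanSpace ℝ (Fin (d + 1))) (s : Set (EuclideanSpace ℝ (Fin (d + 1)))),
      (μH[(d : ℝ)] : Measure (EuclideanSpace ℝ (Fin (d + 1)))) ((fun y => v + y) '' s) =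
        (μH[(d : ℝ)] : Measure (EuclideanSpace ℝ (Fin (d + 1)))) s := by
    intro v s
    exact (IsometryEquiv.addLeft v).hausdorffMeasure_image _ s
  have h1 : IsFiniteMeasureOnCompacts ν := by
    refine ⟨fun K hK => ?_⟩
    rw [hνa]
    have h2 := (LinearMap.toContinuousLinearMap (linMap d)).lipschitz.hausdorffMeasure_image_le
      (d := (d : ℝ)) (Nat.cast_nonneg d) K
    refine lt_of_le_of_lt h2 ?_
    rw [hvol]
    apply ENNReal.mul_lt_top _ hK.measure_lt_top
    exact ENNReal.rpow_lt_top_of_nonneg (Nat.cast_nonneg d) ENNReal.coe_ne_top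
  have h2 : IsAddLeftInvariant ν := by
    refine ⟨fun g => ?_⟩
    ext s hs
    rw [Measure.map_apply (measurable_const_add g) hs, hνa, hνa]
    have h3 : linMap d '' ((fun x => g + x) ⁻¹' s) =
        (fun y => -(linMap d g) + y) '' (linMap d '' s) := by
      rw [Set.image_image]
      ext z
      constructor
      · rintro ⟨x, hx, rfl⟩
        refine ⟨g + x, hx, ?_⟩
        beta_reduce
        rw [map_add]
        abel
      · rintro ⟨x, hx, rfl⟩
        refine ⟨-g + x, ?_, ?_⟩
        · change g + (-g + x) ∈ s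
          rwa [add_neg_cancel_left]
        · rw [map_add, map_neg]
    rw [h3, htr]
  have h3 := isAddLeftInvariant_eq_smul ν (volume : Measure (Fin d → ℝ))
  set c := addHaarScalarFactor ν (volume : Measure (Fin d → ℝ)) with hc
  have hcpos : 0 < c := by
    rw [pos_iff_ne_zero]
    intro h0
    rw [h0, zero_smul] at h3
    obtain ⟨K, -, hK⟩ := (linMap d).exists_antilipschitzWith (linMap_ker d)
    have h4 := hK.le_hausdorffMeasure_image (d := (d : ℝ)) (Nat.cast_nonneg d) (DD d 1)
    rw [hvol, ← hνa, h3] at h4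
    simp only [Measure.coe_zero, Pi.zero_apply, mul_zero, nonpos_iff_eq_zero] at h4
    have h5 := DD_pos d
    rw [Measure.real, h4] at h5
    simp at h5
  refine ⟨c, hcpos, fun S => ?_⟩
  have h6 : chart '' S = (fun y => chart 0 + y) '' (linMap d '' S) := by
    rw [Set.image_image]
    apply Set.image_congr
    intro x _
    exact (chart_eq x).trans (add_comm _ _)
  rw [Measure.real, h6, htr, ← hνa, h3, Measure.real]
  simp

end Pool.Agent.Q260.LS
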